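import Pool.Agent.Lib.MP_b041da_pr.Srw

set_option autoImplicit false

namespace Pool.Agent.Lib.MP_b041da_pr

open Filter Topology

variable {d : ℕ}

lemma rpow_upper {u : ℝ} (hu : |u| ≤ 1 / 10) :
    (1 + u) ^ (-(1 / 4 : ℝ)) ≤ 1 - u / 4 + 3 / 16 * u ^ 2 := by
  obtain ⟨h1, h2⟩ := abs_le.1 hu
  have hpos : 0 < 1 + u := by linarith
  set y := (1 + u) ^ (-(1 / 4 : ℝ)) with hy
  have hy0 : 0 ≤ y := Real.rpow_nonneg hpos.le _
  have hy4 : y ^ 4 * (1 + u) = 1 := by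
    rw [hy, ← Real.rpow_natCast, ← Real.rpow_mul hpos.le]
    norm_num
    rw [Real.rpow_neg_one]; field_simp
  have hp : 0 ≤ 1 - u / 4 + 3 / 16 * u ^ 2 := by nlinarith
  have hu2 : u ^ 2 ≤ 1 / 100 := by nlinarith
  have hu20 : 0 ≤ u ^ 2 := sq_nonneg u
  have key : 1 ≤ (1 - u / 4 + 3 / 16 * u ^ 2) ^ 4 * (1 + u) := by
    have e : (1 - u / 4 + 3 / 16 * u ^ 2) ^ 4 * (1 + u) = 1 + u ^ 2 * (1 / 8 + u / 2 + u ^ 2 *
        (-69 / 256 + 61 / 256 * u + u ^ 2 * (-159 / 2048 + 135 / 4096 * u +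
          u ^ 2 * (-351 / 65536 + 81 / 65536 * u)))) := by ring
    rw [e]
    have a1 : -1 ≤ (-351 / 65536 + 81 / 65536 * u) := by linarith
    have a2 : -1 ≤ (-159 / 2048 + 135 / 4096 * u + u ^ 2 * (-351 / 65536 + 81 / 65536 * u)) := by
      nlinarith
    have a3 : -1 ≤ (-69 / 256 + 61 / 256 * u + u ^ 2 * (-159 / 2048 + 135 / 4096 * u +
          u ^ 2 * (-351 / 65536 + 81 / 65536 * u))) := by nlinarith
    have a4 : 0 ≤ (1 / 8 + u / 2 + u ^ 2 *
        (-69 / 256 + 61 / 256 * u + u ^ 2 * (-159 / 2048 + 135 / 4096 * u +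
          u ^ 2 * (-351 / 65536 + 81 / 65536 * u)))) := by nlinarith
    nlinarith [mul_nonneg hu20 a4]
  have h4 : y ^ 4 ≤ (1 - u / 4 + 3 / 16 * u ^ 2) ^ 4 := by
    apply le_of_mul_le_mul_right _ hpos
    rw [hy4]; exact key
  exact (pow_le_pow_iff_left₀ hy0 hp (by norm_num)).1 h4

lemma rpow_abs {u : ℝ} (hu : |u| ≤ 1 / 10) : |(1 + u) ^ (-(1 / 4 : ℝ)) - 1| ≤ |u| := by
  obtain ⟨h1, h2⟩ := abs_le.1 hu
  have hpos : 0 < 1 + u := by linarith
  have hup := rpow_upper hu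
  rw [abs_le]
  constructor
  · rcases le_total 0 u with h | h
    · rw [abs_of_nonneg h]
      have h3 : (1 + u) ^ (-1 : ℝ) ≤ (1 + u) ^ (-(1 / 4 : ℝ)) :=
        Real.rpow_le_rpow_of_exponent_le (by linarith) (by norm_num)
      rw [Real.rpow_neg_one] at h3
      have h4 : 1 - u ≤ (1 + u)⁻¹ := by
        rw [inv_eq_one_div, le_div_iff₀ hpos]; nlinarith
      linarith
    · have h3 : 1 ≤ (1 + u) ^ (-(1 / 4 : ℝ)) :=
        Real.one_le_rpow_of_pos_of_le_one_of_nonpos hpos (by linarith) (by norm_num)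
      linarith [abs_nonneg u]
  · rcases le_total 0 u with h | h
    · rw [abs_of_nonneg h]; nlinarith
    · rw [abs_of_nonpos h]; nlinarith

/-- `110 + |x|^2` -/
noncomputable def SS (x : Fin d → ℤ) : ℝ := 110 + ∑ i, (x i : ℝ) ^ 2

lemma SS_ge (x : Fin d → ℤ) : 110 ≤ SS x := by
  have : 0 ≤ ∑ i, (x i : ℝ) ^ 2 := Finset.sum_nonneg fun i _ => sq_nonneg _
  unfold SS; linarith

lemma SS_pos (x : Fin d → ℤ) : 0 < SS x := by linarith [SS_ge x]

lemma SS_ge_sq (x : Fin d → ℤ) (i : Fin d) : 110 + (x i : ℝ) ^ 2 ≤ SS x := by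
  have : (x i : ℝ) ^ 2 ≤ ∑ i, (x i : ℝ) ^ 2 :=
    Finset.single_le_sum (f := fun i => (x i : ℝ) ^ 2) (fun i _ => sq_nonneg _) (Finset.mem_univ i)
  unfold SS; linarith

/-- increment of `|x|^2` -/
noncomputable def inc (x : Fin d → ℤ) (e : Fin d × Bool) : ℝ :=
  1 + 2 * (if e.2 then 1 else -1) * (x e.1 : ℝ)

lemma SS_add_vec (x : Fin d → ℤ) (e : Fin d × Bool) : SS (x + vec e) = SS x + inc x e := by
  unfold SS inc
  have : ∀ i, (((x + vec e) i : ℤ) : ℝ) ^ 2 = (x i : ℝ) ^ 2 +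
      (if i = e.1 then 1 + 2 * (if e.2 then 1 else -1) * (x e.1 : ℝ) else 0) := by
    intro i
    by_cases hi : i = e.1
    · subst hi
      simp only [vec, Pi.add_apply, Pi.single_eq_same, if_true]
      split_ifs <;> push_cast <;> ring
    · simp [vec, hi]
  simp_rw [this]
  rw [Finset.sum_add_distrib, Finset.sum_ite_eq']
  simp; ring

lemma abs_inc_le (x : Fin d → ℤ) (e : Fin d × Bool) : |inc x e| ≤ 1 + 2 * |(x e.1 : ℝ)| := by
  unfold inc
  refine (abs_add_le _ _).trans ?_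
  rw [abs_one, abs_mul, abs_mul]
  split_ifs <;> simp

lemma abs_u_le (x : Fin d → ℤ) (e : Fin d × Bool) : |inc x e / SS x| ≤ 1 / 10 := by
  rw [abs_div, abs_of_pos (SS_pos x), div_le_iff₀ (SS_pos x)]
  have h1 := abs_inc_le x e
  have h2 := SS_ge_sq x e.1
  have h3 := sq_abs (x e.1 : ℝ)
  nlinarith [sq_nonneg (|(x e.1 : ℝ)| - 10)]

/-- the barrier -/
noncomputable def bar (x : Fin d → ℤ) : ℝ := SS x ^ (-(1 / 4 : ℝ))

lemma bar_pos (x : Fin d → ℤ) : 0 < bar x := Real.rpow_pos_of_pos (SS_pos x) _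

lemma bar_add_vec (x : Fin d → ℤ) (e : Fin d × Bool) :
    bar (x + vec e) = bar x * (1 + inc x e / SS x) ^ (-(1 / 4 : ℝ)) := by
  have h1 := abs_le.1 (abs_u_le x e)
  rw [bar, bar, ← Real.mul_rpow (SS_pos x).le (by linarith), SS_add_vec]
  congr 1
  have := SS_pos x
  field_simp

lemma lap_bar (hd : 3 ≤ d) (x : Fin d → ℤ) : lap bar x ≤ 0 := by
  have hdR : (3 : ℝ) ≤ d := by exact_mod_cast hd
  unfold lap
  apply div_nonpos_of_nonpos_of_nonneg _ (by positivity)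
  have h1 : ∀ e : Fin d × Bool, bar (x + vec e) - bar x ≤
      bar x * (-(inc x e / SS x) / 4 + 3 / 16 * (inc x e / SS x) ^ 2) := by
    intro e
    rw [bar_add_vec]
    have := mul_le_mul_of_nonneg_left (rpow_upper (abs_u_le x e)) (bar_pos x).le
    linarith
  refine (Finset.sum_le_sum fun e _ => h1 e).trans ?_
  rw [← Finset.mul_sum]
  apply mul_nonpos_of_nonneg_of_nonpos (bar_pos x).le
  have hS := SS_pos x
  have h2 : ∑ e : Fin d × Bool, (-(inc x e / SS x) / 4 + 3 / 16 * (inc x e / SS x) ^ 2) =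
      (-(d / 2) * SS x + 3 / 16 * (2 * d + 8 * ∑ i, (x i : ℝ) ^ 2)) / SS x ^ 2 := by
    rw [Fintype.sum_prod_type]
    have : ∀ i : Fin d, ∑ b : Bool, (-(inc x (i, b) / SS x) / 4 +
        3 / 16 * (inc x (i, b) / SS x) ^ 2) =
        (-(1 / 2) * SS x + 3 / 16 * (2 + 8 * (x i : ℝ) ^ 2)) / SS x ^ 2 := by
      intro i
      simp only [Fintype.sum_bool, inc, if_true, Bool.false_eq_true, if_false]
      field_simp
      ring
    simp_rw [this]
    rw [← Finset.sum_div]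
    congr 1
    simp only [mul_add, Finset.sum_add_distrib, ← Finset.mul_sum, Finset.sum_const,
      Finset.card_univ, Fintype.card_fin, nsmul_eq_mul]
    ring
  rw [h2]
  apply div_nonpos_of_nonpos_of_nonneg _ (by positivity)
  have h3 : 0 ≤ ∑ i, (x i : ℝ) ^ 2 := Finset.sum_nonneg fun i _ => sq_nonneg _
  unfold SS
  nlinarith

lemma tendsto_SS : Tendsto (SS : (Fin d → ℤ) → ℝ) cofinite atTop := by
  rw [tendsto_atTop]
  intro b
  obtain ⟨N, hN⟩ := exists_nat_ge b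
  rw [eventually_cofinite]
  refine (Set.finite_Icc (fun _ => -(N : ℤ)) (fun _ => (N : ℤ))).subset fun x hx => ?_
  simp only [Set.mem_ofPred_eq, not_le] at hx
  have key : ∀ i, |x i| ≤ N := by
    intro i
    have h1 := SS_ge_sq x i
    have h2 : |(x i : ℝ)| ≤ N := by
      have h3 := sq_abs (x i : ℝ)
      nlinarith [sq_nonneg (|(x i : ℝ)| - 1)]
    exact_mod_cast h2
  exact ⟨fun i => (abs_le.1 (key i)).1, fun i => (abs_le.1 (key i)).2⟩

lemma tendsto_SS_rpow {a : ℝ} (ha : 0 < a) :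
    Tendsto (fun x : Fin d → ℤ => SS x ^ (-a)) cofinite (𝓝 0) :=
  (tendsto_rpow_neg_atTop ha).comp tendsto_SS

/-- the vertical factor -/
noncomputable def gam (h : ℤ) : ℝ := (110 + (h : ℝ) ^ 2) ^ (-(5 / 8 : ℝ))

lemma gam_pos (h : ℤ) : 0 < gam h := Real.rpow_pos_of_pos (by positivity) _

lemma summable_gam : Summable gam := by
  refine Summable.of_norm_bounded_eventually
    (Real.summable_abs_int_rpow (b := 5 / 4) (by norm_num)) ?_
  filter_upwards [eventually_cofinite_ne 0] with h hh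
  have h1 : (0 : ℝ) < |(h : ℝ)| := by
    rw [abs_pos]; exact_mod_cast hh
  rw [Real.norm_eq_abs, abs_of_pos (gam_pos h), gam]
  have h2 : |(h : ℝ)| ^ (-(5 / 4 : ℝ)) = (|(h : ℝ)| ^ 2) ^ (-(5 / 8 : ℝ)) := by
    rw [← Real.rpow_natCast, ← Real.rpow_mul h1.le]; norm_num
  rw [h2, sq_abs]
  apply Real.rpow_le_rpow_of_nonpos
  · rw [← sq_abs]; positivity
  · linarith
  · norm_num

lemma SS_col_le (e₀ : Fin d × Bool) (x : Fin d → ℤ) : SS (col e₀ x) ≤ SS x := by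
  unfold SS
  refine add_le_add le_rfl (Finset.sum_le_sum fun i _ => ?_)
  by_cases hi : i = e₀.1
  · subst hi; simp [col, sq_nonneg]
  · simp [col, Function.update_of_ne hi]

lemma grad_bar (e₀ : Fin d × Bool) (x : Fin d → ℤ) (e : Fin d × Bool) :
    |bar (x + vec e) - bar x| ≤ 3 * (SS (col e₀ x) ^ (-(1 / 8 : ℝ)) * gam (x e₀.1)) := by
  have hS := SS_pos x
  have h1 : |bar (x + vec e) - bar x| ≤ bar x * |inc x e / SS x| := by
    rw [bar_add_vec, ← mul_sub_one, abs_mul, abs_of_pos (bar_pos x)]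
    exact mul_le_mul_of_nonneg_left (rpow_abs (abs_u_le x e)) (bar_pos x).le
  have h2 : |inc x e| ≤ 3 * SS x ^ (1 / 2 : ℝ) := by
    rw [← Real.sqrt_eq_rpow]
    have h3 : |(x e.1 : ℝ)| ≤ √(SS x) := by
      apply Real.abs_le_sqrt; linarith [SS_ge_sq x e.1]
    have h4 : 1 ≤ √(SS x) := by
      rw [Real.one_le_sqrt]; linarith [SS_ge x]
    linarith [abs_inc_le x e]
  have h3 : bar x * |inc x e / SS x| ≤ 3 * (SS x ^ (-(1 / 8 : ℝ)) * SS x ^ (-(5 / 8 : ℝ))) := by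
    rw [abs_div, abs_of_pos hS]
    calc bar x * (|inc x e| / SS x) ≤ bar x * (3 * SS x ^ (1 / 2 : ℝ) / SS x) := by
          have := bar_pos x
          gcongr
      _ = 3 * (SS x ^ (-(1 / 4 : ℝ)) * SS x ^ (1 / 2 : ℝ) * SS x ^ (-1 : ℝ)) := by
          rw [Real.rpow_neg_one, bar]; field_simp
      _ = _ := by
          rw [← Real.rpow_add hS, ← Real.rpow_add hS, ← Real.rpow_add hS]; norm_num
  refine h1.trans (h3.trans ?_)
  have h4 : SS x ^ (-(1 / 8 : ℝ)) ≤ SS (col e₀ x) ^ (-(1 / 8 : ℝ)) :=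
    Real.rpow_le_rpow_of_nonpos (SS_pos _) (SS_col_le e₀ x) (by norm_num)
  have h5 : SS x ^ (-(5 / 8 : ℝ)) ≤ gam (x e₀.1) :=
    Real.rpow_le_rpow_of_nonpos (by positivity) (SS_ge_sq x e₀.1) (by norm_num)
  have h6 : 0 ≤ SS x ^ (-(5 / 8 : ℝ)) := Real.rpow_nonneg hS.le _
  have h7 : 0 ≤ SS (col e₀ x) ^ (-(1 / 8 : ℝ)) := Real.rpow_nonneg (SS_pos _).le _
  gcongr

end Pool.Agent.Lib.MP_b041da_pr
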