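import Mathlib

set_option autoImplicit false

namespace Pool.Agent.Lib.MP_b041da_pr

open MeasureTheory Filter

/-- The unit vector of a direction: `(i, true)` is `+e_i` and `(i, false)` is `-e_i`. -/
def vec {d : ℕ} (e : Fin d × Bool) : Fin d → ℤ := Pi.single e.1 (if e.2 then 1 else -1)

/-- One step of the rotor walk on states (position, rotor configuration): the particle steps
along the rotor at its position, and then that rotor advances. -/
def step {d : ℕ} (m : (Fin d → ℤ) → Equiv.Perm (Fin d × Bool))
    (s : (Fin d → ℤ) × ((Fin d → ℤ) → Fin d × Bool)) :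
    (Fin d → ℤ) × ((Fin d → ℤ) → Fin d × Bool) :=
  (s.1 + vec (s.2 s.1), Function.update s.2 s.1 (m s.1 (s.2 s.1)))

/-- Position and rotor configuration after `k` steps of the rotor walk started at the origin with
configuration `ρ` under the mechanism `m`. -/
def walk {d : ℕ} (m : (Fin d → ℤ) → Equiv.Perm (Fin d × Bool)) (ρ : (Fin d → ℤ) → Fin d × Bool)
    (k : ℕ) : (Fin d → ℤ) × ((Fin d → ℤ) → Fin d × Bool) :=
  (step m)^[k] (0, ρ)

/-- The walk never returns to the origin. -/
def Escapes {d : ℕ} (m : (Fin d → ℤ) → Equiv.Perm (Fin d × Bool))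
    (ρ : (Fin d → ℤ) → Fin d × Bool) : Prop :=
  ∀ k, 1 ≤ k → (walk m ρ k).1 ≠ 0

open Classical in
/-- The rotor configuration left by one particle: the configuration at the first return time if
it returns, and at each site the eventual value of the rotor if it escapes. -/
noncomputable def next {d : ℕ} (m : (Fin d → ℤ) → Equiv.Perm (Fin d × Bool))
    (ρ : (Fin d → ℤ) → Fin d × Bool) : (Fin d → ℤ) → Fin d × Bool :=
  if Escapes m ρ then
    fun x => if h : ∃ e, ∀ᶠ k in atTop, (walk m ρ k).2 x = e then h.choose else ρ x
  else (walk m ρ (sInf {k | 1 ≤ k ∧ (walk m ρ k).1 = 0})).2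

open Classical in
/-- The number of the first `n` particles that escape. -/
noncomputable def escaped {d : ℕ} (m : (Fin d → ℤ) → Equiv.Perm (Fin d × Bool))
    (ρ : (Fin d → ℤ) → Fin d × Bool) (n : ℕ) : ℕ :=
  ((Finset.range n).filter (fun j => Escapes m ((next m)^[j] ρ))).card

/-- The probability that simple random walk on `ℤ^d` (independent uniform steps) started at the
origin never returns to it. -/
noncomputable def alpha (d : ℕ) : ℝ :=
  (Measure.infinitePi (fun _ : ℕ => ProbabilityTheory.uniformOn (Set.univ : Set (Fin d × Bool)))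
    {ω | ∀ k, 1 ≤ k → ∑ j ∈ Finset.range k, vec (ω j) ≠ 0}).toReal

end Pool.Agent.Lib.MP_b041da_pr
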