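import Pool.Agent.Lib.MP_b041da_pr.Defs

set_option autoImplicit false

namespace Pool.Agent.Lib.MP_b041da_pr

/-- The site to which the rotor at `x` points. -/
def target {d : ℕ} (ρ : (Fin d → ℤ) → Fin d × Bool) (x : Fin d → ℤ) : Fin d → ℤ :=
  x + vec (ρ x)

/-- The rotor paths from `x` and from `y` meet, that is, `x` and `y` lie in the same connected
component of the graph with the edges from each site to its target. -/
def Merge {d : ℕ} (ρ : (Fin d → ℤ) → Fin d × Bool) (x y : Fin d → ℤ) : Prop :=
  ∃ i j : ℕ, (target ρ)^[i] x = (target ρ)^[j] y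

end Pool.Agent.Lib.MP_b041da_pr
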