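import Pool.Agent.Lib.MP_b041da_pr.Potential
import Pool.Agent.Lib.MP_b041da_pr.ForestDefs

set_option autoImplicit false

namespace Pool.Agent.Lib.MP_b041da_pr

open Filter Topology

variable {d : ℕ} {m : (Fin d → ℤ) → Equiv.Perm (Fin d × Bool)}
  {ρ ρ₀ : (Fin d → ℤ) → Fin d × Bool}

lemma Merge.trans {x y z : Fin d → ℤ} (h1 : Merge ρ₀ x y) (h2 : Merge ρ₀ y z) :
    Merge ρ₀ x z := by
  obtain ⟨i, j, hij⟩ := h1
  obtain ⟨k, l, hkl⟩ := h2
  refine ⟨k + i, j + l, ?_⟩
  rw [Function.iterate_add_apply, hij, ← Function.iterate_add_apply, add_comm,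
    Function.iterate_add_apply, hkl, ← Function.iterate_add_apply]

lemma merge_iter (x : Fin d → ℤ) (i : ℕ) : Merge ρ₀ x ((target ρ₀)^[i] x) := ⟨i, 0, rfl⟩

lemma merge_iter' (x : Fin d → ℤ) (i : ℕ) : Merge ρ₀ ((target ρ₀)^[i] x) x := ⟨0, i, rfl⟩

/-- `x` lies in the component of a point of `P` -/
def InC (ρ₀ : (Fin d → ℤ) → Fin d × Bool) (P : Finset (Fin d → ℤ)) (x : Fin d → ℤ) : Prop :=
  ∃ p ∈ P, Merge ρ₀ x p

lemma InC.of_merge {P : Finset (Fin d → ℤ)} {x y : Fin d → ℤ} (h : Merge ρ₀ x y)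
    (hy : InC ρ₀ P y) : InC ρ₀ P x := by
  obtain ⟨p, hp, h2⟩ := hy
  exact ⟨p, hp, h.trans h2⟩

/-- outside the components of the points of `P` the rotors are in their initial position -/
def SuppF (ρ₀ ρ : (Fin d → ℤ) → Fin d × Bool) (P : Finset (Fin d → ℤ)) : Prop :=
  ∀ x, ¬ InC ρ₀ P x → ρ x = ρ₀ x

lemma exists_comp {P : Finset (Fin d → ℤ)}
    (hP : ∀ y ∈ Function.periodicPts (target ρ₀), y ∈ P) (h : SuppF ρ₀ ρ P) :
    ∃ c, ∀ k, SuppF ρ₀ (walk m ρ k).2 (insert c P) := by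
  have hins : ∀ c x, InC ρ₀ P x → InC ρ₀ (insert c P) x := by
    rintro c x ⟨p, hp, h2⟩
    exact ⟨p, Finset.mem_insert_of_mem hp, h2⟩
  have h1 : ∀ k, (∀ j < k, InC ρ₀ P (walk m ρ j).1) → SuppF ρ₀ (walk m ρ k).2 P := by
    intro k hk x hx
    rw [rot_const (m := m) (ρ := ρ) (x := x) (Nat.zero_le k)
      fun j _ hj hjx => hx (hjx ▸ hk j hj)]
    exact h x hx
  by_cases hall : ∀ k, InC ρ₀ P (walk m ρ k).1
  · exact ⟨0, fun k x hx => h1 k (fun j _ => hall j) x fun hc => hx (hins _ _ hc)⟩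
  push Not at hall
  classical
  set k₀ := Nat.find hall with hk₀
  have hspec : ¬ InC ρ₀ P (walk m ρ k₀).1 := Nat.find_spec hall
  have hmin : ∀ j < k₀, InC ρ₀ P (walk m ρ j).1 := fun j hj => by
    have := Nat.find_min hall hj
    simpa using this
  have h2 : ∀ j : ℕ, ∀ i ≤ j, (walk m ρ (k₀ + i)).1 = (target ρ₀)^[i] (walk m ρ k₀).1 := by
    intro j
    induction j with
    | zero => intro i hi; simp [Nat.le_zero.1 hi]
    | succ j ih =>
      intro i hi
      rcases hi.lt_or_eq with hi | rfl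
      · exact ih i (by omega)
      · rw [← add_assoc, walk_pos_succ]
        have h3 : (walk m ρ (k₀ + j)).2 (walk m ρ (k₀ + j)).1 = ρ₀ (walk m ρ (k₀ + j)).1 := by
          rw [rot_const (Nat.le_add_right k₀ j)]
          · apply h1 k₀ hmin
            rw [ih j le_rfl]
            exact fun hc => hspec (hc.of_merge (merge_iter _ j))
          · intro l hl1 hl2 hl3
            obtain ⟨i, rfl⟩ := Nat.exists_eq_add_of_le hl1
            rw [ih i (by omega), ih j le_rfl] at hl3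
            have hper : (target ρ₀)^[i] (walk m ρ k₀).1 ∈ Function.periodicPts (target ρ₀) := by
              refine ⟨j - i, by omega, ?_⟩
              unfold Function.IsPeriodicPt Function.IsFixedPt
              rw [← Function.iterate_add_apply, Nat.sub_add_cancel (by omega), hl3]
            exact hspec ⟨_, hP _ hper, merge_iter _ i⟩
        rw [h3, ih j le_rfl, Function.iterate_succ_apply']
        rfl
  refine ⟨(walk m ρ k₀).1, fun k x hx => ?_⟩
  rw [rot_const (Nat.zero_le k)]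
  · exact h x fun hc => hx (hins _ _ hc)
  · intro j _ _ hjx
    by_cases hj : j < k₀
    · exact hx (hins _ _ (hjx ▸ hmin j hj))
    · obtain ⟨i, rfl⟩ := Nat.exists_eq_add_of_le (not_lt.1 hj)
      apply hx
      rw [← hjx, h2 i i le_rfl]
      exact ⟨_, Finset.mem_insert_self _ _, merge_iter' _ i⟩

lemma suppF_next (hm : ∀ x, (m x).IsCycleOn Set.univ) {P : Finset (Fin d → ℤ)}
    (h : ∀ k, SuppF ρ₀ (walk m ρ k).2 P) : SuppF ρ₀ (next m ρ) P := by
  by_cases he : Escapes m ρ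
  · intro x hx
    obtain ⟨k, hk⟩ := (he.eventually_next hm x).exists
    rw [← hk]; exact h k x hx
  · obtain ⟨T, -, -, -, hT⟩ := next_of_not_escapes he
    rw [hT]; exact h T

lemma exists_suppF_iterate (hm : ∀ x, (m x).IsCycleOn Set.univ) {P₀ : Finset (Fin d → ℤ)}
    (hP : ∀ y ∈ Function.periodicPts (target ρ₀), y ∈ P₀) (n : ℕ) :
    ∃ P : Finset (Fin d → ℤ), P₀ ⊆ P ∧ P.card ≤ P₀.card + n ∧ SuppF ρ₀ ((next m)^[n] ρ₀) P := by
  induction n with
  | zero => exact ⟨P₀, le_rfl, le_rfl, fun _ _ => rfl⟩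
  | succ n ih =>
    obtain ⟨P, hP0, hC, hS⟩ := ih
    obtain ⟨c, hc⟩ := exists_comp (m := m) (fun y hy => hP0 (hP y hy)) hS
    refine ⟨insert c P, hP0.trans (Finset.subset_insert _ _),
      (Finset.card_insert_le _ _).trans (by omega), ?_⟩
    rw [Function.iterate_succ_apply']
    exact suppF_next hm hc

open Classical in
/-- potential inequality for a general initial configuration -/
theorem gen_ineq (hd : 0 < d) (hm : ∀ x, (m x).IsCycleOn Set.univ) {P₀ : Finset (Fin d → ℤ)}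
    (hP : ∀ y ∈ Function.periodicPts (target ρ₀), y ∈ P₀)
    (f : (Fin d → ℤ) → ℝ) (hf0 : Tendsto f cofinite (𝓝 0)) (hsup : ∀ x, x ≠ 0 → lap f x ≤ 0)
    {B : (Fin d → ℤ) → ℝ} (hB : ∀ x, 0 ≤ B x) (hgrad : ∀ x e, |f (x + vec e) - f x| ≤ B x)
    {Λ : ℕ → ℝ} (hΛ : ∀ (N : ℕ) (P : Finset (Fin d → ℤ)), P.card ≤ N →
      ∀ S : Finset (Fin d → ℤ), ∑ x ∈ S, (if InC ρ₀ P x then B x else 0) ≤ Λ N) (n : ℕ) :
    -(8 * d * Λ (P₀.card + n)) ≤ n * lap f 0 + f 0 * escaped m ρ₀ n := by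
  obtain ⟨w, hw1, hw2⟩ := exists_site_weight hd hm f _ hgrad
  let t : ((Fin d → ℤ) → Fin d × Bool) → (Fin d → ℤ) → ℝ := fun ρ x => w x (ρ x) - w x (ρ₀ x)
  let bd : Finset (Fin d → ℤ) → (Fin d → ℤ) → ℝ := fun C x =>
    8 * d * (if InC ρ₀ C x then B x else 0)
  have hnn : ∀ (C : Finset (Fin d → ℤ)) x, 0 ≤ (if InC ρ₀ C x then B x else 0) := by
    intro C x; split_ifs
    · exact hB x
    · exact le_rfl
  have hsm : ∀ C : Finset (Fin d → ℤ), Summable (fun x => if InC ρ₀ C x then B x else 0) :=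
    fun C => summable_of_sum_le (hnn C) (hΛ _ C le_rfl)
  have hbd : ∀ C, Summable (bd C) := fun C => (hsm C).mul_left _
  have ht : ∀ ρ C, SuppF ρ₀ ρ C → ∀ x, ‖t ρ x‖ ≤ bd C x := by
    intro ρ C hS x
    simp only [t, bd, Real.norm_eq_abs]
    split_ifs with hx
    · refine (abs_sub _ _).trans ?_
      linarith [hw2 x (ρ x), hw2 x (ρ₀ x)]
    · simp [hS x hx]
  have hts : ∀ ρ C, SuppF ρ₀ ρ C → Summable (t ρ) := fun ρ C hS =>
    Summable.of_norm_bounded (hbd C) (ht ρ C hS)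
  let W : ((Fin d → ℤ) → Fin d × Bool) → ℝ := fun ρ => ∑' x, t ρ x
  have hstep : ∀ ρ C, (∀ k, SuppF ρ₀ (walk m ρ k).2 C) → ∀ k,
      f (walk m ρ (k + 1)).1 + W (walk m ρ (k + 1)).2 =
        f (walk m ρ k).1 + lap f (walk m ρ k).1 + W (walk m ρ k).2 := by
    intro ρ C hS k
    have h1 := (hts _ C (hS k)).tsum_eq_add_tsum_ite (walk m ρ k).1
    have h2 := (hts _ C (hS (k + 1))).tsum_eq_add_tsum_ite (walk m ρ k).1
    have h3 : ∑' x, (if x = (walk m ρ k).1 then 0 else t (walk m ρ (k + 1)).2 x) =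
        ∑' x, (if x = (walk m ρ k).1 then 0 else t (walk m ρ k).2 x) := by
      congr 1; funext x
      split_ifs with hx
      · rfl
      · simp only [t, walk_rot_succ_ne k hx]
    have h4 := hw1 (walk m ρ k).1 ((walk m ρ k).2 (walk m ρ k).1)
    simp only [W]
    rw [h1, h2, h3]
    simp only [t, walk_rot_succ_self]
    rw [walk_pos_succ]
    linarith
  have hrun : ∀ ρ C, (∀ k, SuppF ρ₀ (walk m ρ k).2 C) → ∀ k,
      (∀ j, 1 ≤ j → j < k + 1 → (walk m ρ j).1 ≠ 0) →
      f (walk m ρ (k + 1)).1 + W (walk m ρ (k + 1)).2 ≤ f 0 + lap f 0 + W ρ := by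
    intro ρ C hS k
    induction k with
    | zero => intro _; exact (hstep ρ C hS 0).le
    | succ k ih =>
      intro h
      rw [hstep ρ C hS (k + 1)]
      have h1 := ih fun j hj hjk => h j hj (by omega)
      have h2 := hsup _ (h (k + 1) (by omega) (by omega))
      linarith
  have hpart : ∀ ρ C, P₀ ⊆ C → SuppF ρ₀ ρ C →
      W (next m ρ) ≤ W ρ + lap f 0 + f 0 * (if Escapes m ρ then 1 else 0) := by
    intro ρ C hC hS
    obtain ⟨c, hc⟩ := exists_comp (m := m) (fun y hy => hC (hP y hy)) hS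
    split_ifs with he
    · have h1 : Tendsto (fun k => W (walk m ρ k).2) atTop (𝓝 (W (next m ρ))) := by
        refine tendsto_tsum_of_dominated_convergence (hbd (insert c C)) (fun x => ?_)
          (Eventually.of_forall fun k => ht _ _ (hc k))
        refine tendsto_const_nhds.congr' ?_
        filter_upwards [he.eventually_next hm x] with k hk
        simp only [t, hk]
      have h2 : Tendsto (fun k => f (walk m ρ k).1) atTop (𝓝 0) :=
        hf0.comp (he.tendsto_cofinite hm)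
      have h3 := (h2.add h1).comp (tendsto_add_atTop_nat 1)
      have h4 := le_of_tendsto' h3 fun k => hrun ρ _ hc k fun j hj _ => he j hj
      linarith
    · obtain ⟨T, hT1, hT2, hT3, hT4⟩ := next_of_not_escapes he
      obtain ⟨k, rfl⟩ : ∃ k, T = k + 1 := ⟨T - 1, by omega⟩
      have := hrun ρ _ hc k hT3
      rw [hT2, ← hT4] at this
      linarith
  have hiter : ∀ n : ℕ, W ((next m)^[n] ρ₀) ≤ n * lap f 0 + f 0 * escaped m ρ₀ n := by
    intro n
    induction n with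
    | zero => simp [W, t, escaped]
    | succ n ih =>
      obtain ⟨C, hC, -, hS⟩ := exists_suppF_iterate hm hP n
      have h1 := hpart _ C hC hS
      have h2 : (escaped m ρ₀ (n + 1) : ℝ) = escaped m ρ₀ n +
          (if Escapes m ((next m)^[n] ρ₀) then 1 else 0) := by
        simp only [escaped, Finset.card_filter, Finset.sum_range_succ]
        push_cast; rfl
      rw [Function.iterate_succ_apply', h2]
      push_cast
      linarith
  refine le_trans ?_ (hiter n)
  obtain ⟨C, -, hC, hS⟩ := exists_suppF_iterate hm hP n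
  have h1 : ‖W ((next m)^[n] ρ₀)‖ ≤ ∑' x, bd C x :=
    tsum_of_norm_bounded (hbd C).hasSum (ht _ C hS)
  have h2 : ∑' x, bd C x ≤ 8 * d * Λ (P₀.card + n) := by
    simp only [bd]
    rw [tsum_mul_left]
    exact mul_le_mul_of_nonneg_left ((hsm C).tsum_le_of_sum_le (hΛ _ C hC)) (by positivity)
  exact (abs_le.1 (h1.trans h2)).1

end Pool.Agent.Lib.MP_b041da_pr
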