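import Pool.Agent.Lib.MP_b041da_pr.OddBarrier

set_option autoImplicit false

namespace Pool.Agent.Lib.MP_b041da_pr

open Filter Topology

variable {d : ℕ}

lemma lap_eq' (hd : 0 < d) (f : (Fin d → ℤ) → ℝ) (x : Fin d → ℤ) :
    lap f x = (∑ e : Fin d × Bool, f (x + vec e)) / (2 * d) - f x := by
  have hdR : (0 : ℝ) < d := by exact_mod_cast hd
  rw [lap, Finset.sum_sub_distrib]
  simp
  field_simp

/-- probability of ever visiting the origin from `x` -/
noncomputable def gg (x : Fin d → ℤ) : ℝ := 1 - qinf x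

lemma gg_zero : gg (0 : Fin d → ℤ) = 1 := by simp [gg, qinf_zero]

lemma qinf_nonneg (hd : 0 < d) (x : Fin d → ℤ) : 0 ≤ qinf x :=
  ge_of_tendsto' (tendsto_qinf hd x) fun R => q_nonneg R x

lemma gg_nonneg (hd : 0 < d) (x : Fin d → ℤ) : 0 ≤ gg x := by
  unfold gg; linarith [qinf_le_one hd x]

lemma gg_le_one (hd : 0 < d) (x : Fin d → ℤ) : gg x ≤ 1 := by
  unfold gg; linarith [qinf_nonneg hd x]

lemma lap_gg_eq (hd : 0 < d) (x : Fin d → ℤ) :
    lap gg x = qinf x - (∑ e : Fin d × Bool, qinf (x + vec e)) / (2 * d) := by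
  have h1 : lap gg x = -lap qinf x := by
    rw [lap, lap, ← neg_div, ← Finset.sum_neg_distrib]
    congr 1
    exact Finset.sum_congr rfl fun e _ => by simp only [gg]; ring
  rw [h1, lap_eq' hd]; ring

lemma lap_gg (hd : 0 < d) {x : Fin d → ℤ} (hx : x ≠ 0) : lap gg x = 0 := by
  rw [lap_gg_eq hd, ← qinf_harm hd hx, sub_self]

lemma lap_gg_zero (hd : 0 < d) : lap gg (0 : Fin d → ℤ) = -alpha d := by
  rw [lap_gg_eq hd, alpha_eq hd, qinf_zero]; simp

lemma one_sub_q_le (hd : 3 ≤ d) (R : ℕ) :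
    ∀ x : Fin d → ℤ, 1 - q R x ≤ (bar (0 : Fin d → ℤ))⁻¹ * bar x := by
  have hd0 : 0 < d := by omega
  have hdR : (0 : ℝ) < d := by exact_mod_cast hd0
  have hc : 0 < (bar (0 : Fin d → ℤ))⁻¹ := inv_pos.2 (bar_pos 0)
  have h0 : ∀ R, 1 - q R (0 : Fin d → ℤ) ≤ (bar (0 : Fin d → ℤ))⁻¹ * bar (0 : Fin d → ℤ) := by
    intro R
    rw [q_zero, inv_mul_cancel₀ (bar_pos 0).ne']; norm_num
  induction R with
  | zero =>
    intro x
    by_cases hx : x = 0
    · rw [hx]; exact h0 0
    · simp only [q, if_neg hx, sub_self]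
      exact (mul_pos hc (bar_pos x)).le
  | succ R ih =>
    intro x
    by_cases hx : x = 0
    · rw [hx]; exact h0 _
    · simp only [q, if_neg hx]
      have h1 := lap_bar hd x
      rw [lap_eq' hd0] at h1
      have h2 : ∑ e : Fin d × Bool, (1 - q R (x + vec e)) ≤
          ∑ e : Fin d × Bool, (bar (0 : Fin d → ℤ))⁻¹ * bar (x + vec e) :=
        Finset.sum_le_sum fun e _ => ih _
      rw [← Finset.mul_sum, Finset.sum_sub_distrib] at h2
      simp only [Finset.sum_const, Finset.card_univ, Fintype.card_prod, Fintype.card_fin,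
        Fintype.card_bool, nsmul_eq_mul, mul_one] at h2
      push_cast at h2
      have h3 : 1 - (∑ e : Fin d × Bool, q R (x + vec e)) / (2 * d) =
          ((d : ℝ) * 2 - ∑ e : Fin d × Bool, q R (x + vec e)) / (2 * d) := by
        field_simp
      rw [h3]
      calc _ ≤ ((bar (0 : Fin d → ℤ))⁻¹ * ∑ e : Fin d × Bool, bar (x + vec e)) / (2 * d) := by
            gcongr
        _ = (bar (0 : Fin d → ℤ))⁻¹ * ((∑ e : Fin d × Bool, bar (x + vec e)) / (2 * d)) := by
            ring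
        _ ≤ _ := mul_le_mul_of_nonneg_left (by linarith) hc.le

lemma tendsto_gg (hd : 3 ≤ d) : Tendsto (gg : (Fin d → ℤ) → ℝ) cofinite (𝓝 0) := by
  have hd0 : 0 < d := by omega
  have h1 := (tendsto_SS_rpow (d := d) (a := 1 / 4) (by norm_num)).const_mul
    (bar (0 : Fin d → ℤ))⁻¹
  rw [mul_zero] at h1
  refine squeeze_zero (fun x => gg_nonneg hd0 x) (fun x => ?_) h1
  exact le_of_tendsto' ((tendsto_qinf hd0 x).const_sub 1) fun R => one_sub_q_le hd R x

/-- reflection of the `i`-th coordinate -/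
def rf (i : Fin d) (x : Fin d → ℤ) : Fin d → ℤ := Function.update x i (-x i)

/-- reflection of directions -/
def fl (i : Fin d) (e : Fin d × Bool) : Fin d × Bool := if e.1 = i then (e.1, !e.2) else e

lemma fl_fl (i : Fin d) (e : Fin d × Bool) : fl i (fl i e) = e := by
  unfold fl
  by_cases h : e.1 = i
  · simp [h]; ext <;> simp [h]
  · simp [h]

lemma rf_add_vec (i : Fin d) (x : Fin d → ℤ) (e : Fin d × Bool) :
    rf i (x + vec e) = rf i x + vec (fl i e) := by
  obtain ⟨k, b⟩ := e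
  funext j
  by_cases hk : k = i
  · subst hk
    by_cases hj : j = k
    · subst hj
      cases b <;> simp [rf, fl, vec] <;> ring
    · simp [rf, fl, vec, hj]
  · by_cases hj : j = i
    · subst hj
      have hk' : j ≠ k := fun h => hk h.symm
      simp [rf, fl, vec, hk, hk']
    · simp [rf, fl, hj, hk]

lemma rf_eq_zero (i : Fin d) (x : Fin d → ℤ) : rf i x = 0 ↔ x = 0 := by
  constructor
  · intro h
    funext j
    have := congrFun h j
    by_cases hj : j = i
    · subst hj; simpa [rf] using this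
    · simpa [rf, hj] using this
  · rintro rfl
    funext j
    by_cases hj : j = i
    · subst hj; simp [rf]
    · simp [rf, hj]

lemma q_rf (i : Fin d) (R : ℕ) : ∀ x : Fin d → ℤ, q R (rf i x) = q R x := by
  induction R with
  | zero => intro x; simp only [q, rf_eq_zero]
  | succ R ih =>
    intro x
    simp only [q, rf_eq_zero]
    congr 2
    rw [← Equiv.sum_comp (Function.Involutive.toPerm (fl i) (fl_fl i))]
    refine Finset.sum_congr rfl fun e _ => ?_
    rw [Function.Involutive.coe_toPerm, ← rf_add_vec, ih]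

lemma gg_rf (i : Fin d) (x : Fin d → ℤ) : gg (rf i x) = gg x := by
  simp only [gg, qinf, q_rf]

lemma half_max (hd : 0 < d) (i : Fin d) (E : (Fin d → ℤ) → ℝ) (hE : Tendsto E cofinite (𝓝 0))
    (h0 : 0 ≤ E 0) (hsup : ∀ x, 0 ≤ x i → x ≠ 0 → lap E x ≤ 0)
    (hodd : ∀ x, x i = 0 → E (x + vec (i, false)) = -E x) : ∀ x, 0 ≤ x i → 0 ≤ E x := by
  classical
  have hdR : (0 : ℝ) < d := by exact_mod_cast hd
  by_contra hc
  push Not at hc
  obtain ⟨x₀, hx₀, hE₀⟩ := hc
  have hfin : {x | ¬ E x₀ < E x}.Finite := hE.eventually (lt_mem_nhds hE₀)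
  let A := hfin.toFinset.filter (fun x => 0 ≤ x i)
  have hA : ∀ x, x ∈ A ↔ E x ≤ E x₀ ∧ 0 ≤ x i := by
    intro x; simp [A]
  obtain ⟨x₁, hx₁, hmin⟩ := A.exists_min_image E ⟨x₀, (hA x₀).2 ⟨le_rfl, hx₀⟩⟩
  have hμ : ∀ y : Fin d → ℤ, 0 ≤ y i → E x₁ ≤ E y := by
    intro y hy
    by_cases h : E y ≤ E x₀
    · exact hmin y ((hA y).2 ⟨h, hy⟩)
    · linarith [((hA x₁).1 hx₁).1, not_le.1 h]
  obtain ⟨x, hx, hmax⟩ := (A.filter (fun x => E x = E x₁)).exists_max_image (fun x => x i)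
    ⟨x₁, Finset.mem_filter.2 ⟨hx₁, rfl⟩⟩
  obtain ⟨hxA, hxE⟩ := Finset.mem_filter.1 hx
  obtain ⟨hx1, hx2⟩ := (hA x).1 hxA
  have hneg : E x < 0 := lt_of_le_of_lt hx1 hE₀
  have hx0 : x ≠ 0 := by rintro rfl; linarith
  have hl := hsup x hx2 hx0
  have hge : ∀ e : Fin d × Bool, 0 ≤ E (x + vec e) - E x := by
    intro e
    by_cases h : 0 ≤ (x + vec e) i
    · linarith [hμ _ h]
    · obtain ⟨k, b⟩ := e
      have hk : k = i := by
        by_contra hk
        have hk' : i ≠ k := fun h => hk h.symm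
        simp [vec, hk'] at h
        omega
      subst hk
      cases b
      · have h1 : x k = 0 := by
          simp [vec] at h
          omega
        rw [hodd x h1]; linarith
      · simp [vec] at h
        omega
  have hup : 0 < E (x + vec (i, true)) - E x := by
    have h1 : (x + vec (i, true)) i = x i + 1 := by simp [vec]
    rcases (hge (i, true)).lt_or_eq with h | h
    · exact h
    · exfalso
      have h2 : x + vec (i, true) ∈ A.filter (fun x => E x = E x₁) :=
        Finset.mem_filter.2 ⟨(hA _).2 ⟨by linarith, by omega⟩, by linarith⟩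
      have := hmax _ h2
      omega
  have hpos : 0 < ∑ e : Fin d × Bool, (E (x + vec e) - E x) :=
    lt_of_lt_of_le hup (Finset.single_le_sum (f := fun e => E (x + vec e) - E x)
      (fun e _ => hge e) (Finset.mem_univ (i, true)))
  have : 0 < lap E x := div_pos hpos (by positivity)
  linarith

lemma SS_le_ST {c : ℝ} (hc : 32 ≤ c) (i : Fin d) (x : Fin d → ℤ) : SS x ≤ 4 * ST c i x := by
  unfold SS ST
  have h1 : ∀ j, (x j : ℝ) ^ 2 ≤ 4 * zc i x j ^ 2 + if j = i then 1 else 0 := by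
    intro j
    unfold zc
    split_ifs
    · nlinarith [sq_nonneg ((x j : ℝ) + 1)]
    · nlinarith [sq_nonneg (x j : ℝ)]
  have h2 := Finset.sum_le_sum fun j (_ : j ∈ Finset.univ) => h1 j
  rw [Finset.sum_add_distrib, Finset.sum_ite_eq', ← Finset.mul_sum] at h2
  simp only [Finset.mem_univ, if_true] at h2
  linarith

lemma abs_bb_le {c : ℝ} (hc : 32 ≤ c) (i : Fin d) (x : Fin d → ℤ) :
    |bb c i x| ≤ ST c i x ^ (-(((d : ℝ) - 1) / 2)) := by
  have h0 : 0 < ST c i x := by nlinarith [ST_ge_sq c i x i, sq_nonneg (zc i x i)]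
  have h1 : |zc i x i| ≤ ST c i x ^ (1 / 2 : ℝ) := by
    rw [← Real.sqrt_eq_rpow]
    apply Real.abs_le_sqrt; linarith [ST_ge_sq c i x i]
  rw [bb, abs_mul, abs_of_pos (Real.rpow_pos_of_pos h0 _)]
  calc _ ≤ ST c i x ^ (1 / 2 : ℝ) * ST c i x ^ (-((d : ℝ) / 2)) :=
        mul_le_mul_of_nonneg_right h1 (Real.rpow_nonneg h0.le _)
    _ = _ := by rw [← Real.rpow_add h0]; congr 1; ring

lemma zc_rf (i : Fin d) (x : Fin d → ℤ) (j : Fin d) :
    zc i (rf i (x + vec (i, true))) j = if j = i then -zc i x j else zc i x j := by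
  unfold zc
  by_cases hj : j = i
  · subst hj; simp [rf, vec]; ring
  · simp [rf, vec, hj]

lemma ST_rf (c : ℝ) (i : Fin d) (x : Fin d → ℤ) :
    ST c i (rf i (x + vec (i, true))) = ST c i x := by
  unfold ST
  congr 1
  refine Finset.sum_congr rfl fun j _ => ?_
  rw [zc_rf]; split_ifs <;> ring

lemma rf_rf_vec (i : Fin d) (x : Fin d → ℤ) :
    rf i (x + vec (i, true)) + vec (i, true) = rf i x := by
  funext j
  by_cases hj : j = i
  · subst hj; simp [rf, vec]
  · simp [rf, vec, hj]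

lemma exists_grad_ST (hd : 3 ≤ d) : ∃ c κ : ℝ, 32 ≤ c ∧ 0 ≤ κ ∧ ∀ (i : Fin d) (x : Fin d → ℤ),
    |gg x - gg (x + vec (i, true))| ≤ κ * ST c i x ^ (-(((d : ℝ) - 1) / 2)) := by
  have hd0 : 0 < d := by omega
  have hdR : (3 : ℝ) ≤ d := by exact_mod_cast hd
  obtain ⟨c, hc, hlap⟩ := exists_lap_bb hd
  have hb0 : ∀ i : Fin d, bb c i 0 = 1 / 2 * (c + 1 / 4) ^ (-((d : ℝ) / 2)) := by
    intro i
    have h1 : ST c i (0 : Fin d → ℤ) = c + 1 / 4 := by
      unfold ST
      congr 1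
      have : ∀ j, zc i (0 : Fin d → ℤ) j ^ 2 = if j = i then 1 / 4 else 0 := by
        intro j; unfold zc; split_ifs <;> norm_num
      simp_rw [this]
      rw [Finset.sum_ite_eq']; simp
    rw [bb, h1]; simp [zc]
  set β : ℝ := 1 / 2 * (c + 1 / 4) ^ (-((d : ℝ) / 2)) with hβ
  have hβ0 : 0 < β := mul_pos (by norm_num) (Real.rpow_pos_of_pos (by linarith) _)
  refine ⟨c, β⁻¹, hc, (inv_pos.2 hβ0).le, fun i => ?_⟩
  let D : (Fin d → ℤ) → ℝ := fun x => gg x - gg (x + vec (i, true))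
  have hDτ : ∀ x, D (rf i (x + vec (i, true))) = -D x := by
    intro x
    simp only [D]
    rw [rf_rf_vec, gg_rf, gg_rf]; ring
  have hbτ : ∀ x, bb c i (rf i (x + vec (i, true))) = -bb c i x := by
    intro x
    rw [bb, bb, ST_rf, zc_rf]; simp
  have hτ : ∀ x : Fin d → ℤ, x i = 0 → x + vec (i, false) = rf i (x + vec (i, true)) := by
    intro x hx
    funext j
    by_cases hj : j = i
    · subst hj; simp [rf, vec, hx]
    · simp [rf, vec, hj]
  have hD0 : Tendsto D cofinite (𝓝 0) := by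
    have := (tendsto_gg hd).sub ((tendsto_gg hd).comp
      (add_left_injective (vec (i, true))).tendsto_cofinite)
    simpa using this
  have hST : Tendsto (ST c i) cofinite atTop := by
    refine tendsto_atTop_mono (f := fun x => (1 / 4 : ℝ) * SS x)
      (fun x => by linarith [SS_le_ST hc i x]) ?_
    exact tendsto_SS.const_mul_atTop (by norm_num)
  have hbb0 : Tendsto (bb c i) cofinite (𝓝 0) := by
    refine squeeze_zero_norm (fun x => abs_bb_le hc i x) ?_
    exact (tendsto_rpow_neg_atTop (by linarith)).comp hST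
  have hDlap : ∀ x : Fin d → ℤ, 0 ≤ x i → x ≠ 0 → lap D x = 0 := by
    intro x hx hx0
    have hx1 : x + vec (i, true) ≠ 0 := by
      intro h
      have := congrFun h i
      simp [vec] at this
      omega
    have h1 : lap D x = lap gg x - lap gg (x + vec (i, true)) := by
      rw [lap, lap, lap, ← sub_div, ← Finset.sum_sub_distrib]
      congr 1
      refine Finset.sum_congr rfl fun e _ => ?_
      simp only [D]
      rw [add_right_comm x (vec e)]; ring
    rw [h1, lap_gg hd0 hx0, lap_gg hd0 hx1, sub_self]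
  have hD1 : |D 0| ≤ 1 := by
    simp only [D]
    rw [abs_le]
    constructor <;>
      linarith [gg_nonneg hd0 (0 : Fin d → ℤ), gg_le_one hd0 (0 : Fin d → ℤ),
        gg_nonneg hd0 (0 + vec (i, true)), gg_le_one hd0 (0 + vec (i, true))]
  have key : ∀ σ : ℝ, |σ| = 1 → ∀ x : Fin d → ℤ, 0 ≤ x i → 0 ≤ β⁻¹ * bb c i x - σ * D x := by
    intro σ hσ
    refine half_max hd0 i (fun x => β⁻¹ * bb c i x - σ * D x) ?_ ?_ ?_ ?_
    · simpa using (hbb0.const_mul β⁻¹).sub (hD0.const_mul σ)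
    · rw [hb0 i, inv_mul_cancel₀ hβ0.ne']
      have : σ * D 0 ≤ |σ * D 0| := le_abs_self _
      rw [abs_mul, hσ, one_mul] at this
      linarith
    · intro x hx hx0
      have h1 : lap (fun x => β⁻¹ * bb c i x - σ * D x) x =
          β⁻¹ * lap (bb c i) x - σ * lap D x := by
        rw [lap, lap, lap, ← mul_div_assoc, ← mul_div_assoc, ← sub_div, Finset.mul_sum,
          Finset.mul_sum, ← Finset.sum_sub_distrib]
        congr 1
        exact Finset.sum_congr rfl fun e _ => by ring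
      rw [h1, hDlap x hx hx0, mul_zero, sub_zero]
      exact mul_nonpos_of_nonneg_of_nonpos (inv_pos.2 hβ0).le (hlap i x hx)
    · intro x hx
      rw [hτ x hx, hDτ, hbτ]; ring
  have hpos : ∀ x : Fin d → ℤ, 0 ≤ x i →
      |D x| ≤ β⁻¹ * ST c i x ^ (-(((d : ℝ) - 1) / 2)) := by
    intro x hx
    have h1 := key 1 (by norm_num) x hx
    have h2 := key (-1) (by norm_num) x hx
    have h3 : β⁻¹ * bb c i x ≤ β⁻¹ * ST c i x ^ (-(((d : ℝ) - 1) / 2)) :=
      mul_le_mul_of_nonneg_left ((le_abs_self _).trans (abs_bb_le hc i x)) (inv_pos.2 hβ0).le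
    rw [abs_le]; constructor <;> linarith
  intro x
  by_cases hx : 0 ≤ x i
  · exact hpos x hx
  · have h1 := hpos (rf i (x + vec (i, true))) (by simp [rf, vec]; omega)
    rwa [hDτ, abs_neg, ST_rf] at h1

/-- sup norm -/
def nrm (x : Fin d → ℤ) : ℕ := Finset.univ.sup fun j => (x j).natAbs

lemma nrm_le_iff (x : Fin d → ℤ) (r : ℕ) : nrm x ≤ r ↔ ∀ j, |x j| ≤ r := by
  unfold nrm
  rw [Finset.sup_le_iff]
  constructor
  · intro h j
    have := h j (Finset.mem_univ j)
    rw [Int.abs_eq_natAbs]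
    exact_mod_cast this
  · intro h j _
    have := h j
    rw [Int.abs_eq_natAbs] at this
    exact_mod_cast this

lemma exists_nrm (hd : 0 < d) (x : Fin d → ℤ) : ∃ j, (nrm x : ℝ) = |(x j : ℝ)| := by
  obtain ⟨j, -, hj⟩ := Finset.exists_mem_eq_sup (Finset.univ : Finset (Fin d))
    ⟨⟨0, hd⟩, Finset.mem_univ _⟩ (fun j => (x j).natAbs)
  refine ⟨j, ?_⟩
  rw [nrm, hj, Nat.cast_natAbs, Int.cast_abs]

lemma exists_grad (hd : 3 ≤ d) : ∃ κ : ℝ, 0 ≤ κ ∧ ∀ (x : Fin d → ℤ) (e : Fin d × Bool),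
    |gg (x + vec e) - gg x| ≤ κ * ((1 + nrm x) * ((1 + (nrm x : ℝ)) ^ d)⁻¹) := by
  have hd0 : 0 < d := by omega
  have hdR : (3 : ℝ) ≤ d := by exact_mod_cast hd
  obtain ⟨c, κ, hc, hκ, h⟩ := exists_grad_ST hd
  refine ⟨κ * (8 : ℝ) ^ (((d : ℝ) - 1) / 2), by positivity, fun x e => ?_⟩
  have key : ∀ (i : Fin d) (y : Fin d → ℤ), (∀ j, |(x j : ℝ)| ≤ |(y j : ℝ)| + 1) →
      ST c i y ^ (-(((d : ℝ) - 1) / 2)) ≤
        (8 : ℝ) ^ (((d : ℝ) - 1) / 2) * ((1 + nrm x) * ((1 + (nrm x : ℝ)) ^ d)⁻¹) := by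
    intro i y hy
    obtain ⟨j, hj⟩ := exists_nrm hd0 x
    have hr : (0 : ℝ) < 1 + nrm x := by positivity
    have h1 : (1 + (nrm x : ℝ)) ^ 2 / 8 ≤ ST c i y := by
      have h2 := SS_le_ST hc i y
      have h3 := SS_ge_sq y j
      have h4 := hy j
      have h5 := sq_abs (y j : ℝ)
      have h6 : (1 + (nrm x : ℝ)) ^ 2 ≤ (2 + |(y j : ℝ)|) ^ 2 :=
        pow_le_pow_left₀ hr.le (by linarith) 2
      nlinarith [sq_nonneg (|(y j : ℝ)| - 2)]
    refine (Real.rpow_le_rpow_of_nonpos (by positivity) h1 (by linarith)).trans (le_of_eq ?_)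
    rw [Real.div_rpow (by positivity) (by norm_num), Real.rpow_neg (by norm_num : (0 : ℝ) ≤ 8),
      div_inv_eq_mul, mul_comm]
    congr 1
    rw [← Real.rpow_natCast, ← Real.rpow_mul hr.le, ← Real.rpow_natCast, ← Real.rpow_neg hr.le,
      ← Real.rpow_one_add' hr.le (by linarith)]
    congr 1
    push_cast; ring
  obtain ⟨i, b⟩ := e
  cases b
  · have h1 := h i (x + vec (i, false))
    have h2 : x + vec (i, false) + vec (i, true) = x := by
      funext j
      by_cases hj : j = i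
      · subst hj; simp [vec]
      · simp [vec, hj]
    rw [h2] at h1
    refine h1.trans ?_
    rw [mul_assoc]
    refine mul_le_mul_of_nonneg_left (key i _ fun j => ?_) hκ
    by_cases hj : j = i
    · subst hj
      have h3 : (((x + vec (j, false)) j : ℤ) : ℝ) = x j - 1 := by
        simp [vec]; ring
      rw [h3]
      have := abs_add_le ((x j : ℝ) - 1) 1
      simpa using this
    · simp [vec, hj]
  · rw [abs_sub_comm]
    refine (h i x).trans ?_
    rw [mul_assoc]
    exact mul_le_mul_of_nonneg_left (key i x fun j => by linarith) hκ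

end Pool.Agent.Lib.MP_b041da_pr
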