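import Pool.Agent.Lib.MP_b041da_pr.Grad
import Pool.Agent.Lib.MP_b041da_pr.Forest

set_option autoImplicit false

namespace Pool.Agent.Lib.MP_b041da_pr

open Filter Topology

variable {d : ℕ}

lemma tele_step {b x : ℝ} (hb : 1 < b) (hx : 0 < x) :
    (x + 1) ^ (-b) ≤ (x ^ (1 - b) - (x + 1) ^ (1 - b)) / (b - 1) := by
  have hx1 : 0 < x + 1 := by linarith
  have h1 : x ^ (1 - b) = (x + 1) ^ (1 - b) * (x / (x + 1)) ^ (1 - b) := by
    rw [← Real.mul_rpow hx1.le (by positivity)]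
    congr 1; field_simp
  have h2 : 1 + (b - 1) / (x + 1) ≤ (x / (x + 1)) ^ (1 - b) := by
    rw [Real.rpow_def_of_pos (by positivity)]
    have h3 := Real.log_le_sub_one_of_pos (show 0 < x / (x + 1) by positivity)
    have h4 : x / (x + 1) - 1 = -(1 / (x + 1)) := by field_simp; ring
    have h5 : (b - 1) / (x + 1) ≤ Real.log (x / (x + 1)) * (1 - b) := by
      rw [h4] at h3
      have := mul_le_mul_of_nonneg_right h3 (show 0 ≤ b - 1 by linarith)
      have h6 : (b - 1) / (x + 1) = 1 / (x + 1) * (b - 1) := by ring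
      rw [h6]; linarith
    linarith [Real.add_one_le_exp (Real.log (x / (x + 1)) * (1 - b))]
  have h3 : (x + 1) ^ (1 - b) = (x + 1) ^ (-b) * (x + 1) := by
    rw [← Real.rpow_add_one hx1.ne']; congr 1; ring
  have hF : 0 < (x + 1) ^ (-b) := Real.rpow_pos_of_pos hx1 _
  rw [le_div_iff₀ (by linarith), h1, h3]
  have h4 := mul_le_mul_of_nonneg_left h2 (mul_pos hF hx1).le
  have h5 : (x + 1) ^ (-b) * (x + 1) * (1 + (b - 1) / (x + 1)) =
      (x + 1) ^ (-b) * (x + 1) + (x + 1) ^ (-b) * (b - 1) := by field_simp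
  linarith

lemma tail_sum {b : ℝ} (hb : 1 < b) {R : ℕ} (hR : 1 ≤ R) (M : ℕ) :
    ∑ r ∈ Finset.range M, (if R < r then (r : ℝ) ^ (-b) else 0) ≤ (R : ℝ) ^ (1 - b) / (b - 1) := by
  have key : ∀ M : ℕ, ∑ r ∈ Finset.range (M + 1), (if R < r then (r : ℝ) ^ (-b) else 0) ≤
      ((R : ℝ) ^ (1 - b) - ((max R M : ℕ) : ℝ) ^ (1 - b)) / (b - 1) := by
    intro M
    induction M with
    | zero => simp
    | succ M ih =>
      rw [Finset.sum_range_succ]
      by_cases h : R < M + 1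
      · rw [if_pos h, max_eq_right (by omega : R ≤ M + 1)]
        rw [max_eq_right (by omega : R ≤ M)] at ih
        have hM : (0 : ℝ) < M := by exact_mod_cast (by omega : 0 < M)
        have := tele_step hb hM
        push_cast
        rw [sub_div] at ih this ⊢
        linarith
      · rw [if_neg h, max_eq_left (by omega : M + 1 ≤ R)]
        rw [max_eq_left (by omega : M ≤ R)] at ih
        linarith
  cases M with
  | zero =>
    simp only [Finset.range_zero, Finset.sum_empty]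
    exact div_nonneg (Real.rpow_nonneg (Nat.cast_nonneg _) _) (by linarith)
  | succ M =>
    refine (key M).trans (div_le_div_of_nonneg_right ?_ (by linarith))
    linarith [Real.rpow_nonneg (Nat.cast_nonneg (max R M)) (1 - b)]

lemma layer_pt (ρ M : ℕ) (hM : 2 * ρ < M) :
    (1 + (ρ : ℝ)) * ((1 + (ρ : ℝ)) ^ d)⁻¹ ≤
      2 ^ d * ∑ r ∈ Finset.range M, (if ρ ≤ r then ((1 + (r : ℝ)) ^ d)⁻¹ else 0) := by
  have h1 : ∑ r ∈ Finset.Icc ρ (2 * ρ), ((2 : ℝ) ^ d * (1 + (ρ : ℝ)) ^ d)⁻¹ ≤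
      ∑ r ∈ Finset.range M, (if ρ ≤ r then ((1 + (r : ℝ)) ^ d)⁻¹ else 0) := by
    refine le_trans (Finset.sum_le_sum fun r hr => ?_)
      (Finset.sum_le_sum_of_subset_of_nonneg (s := Finset.Icc ρ (2 * ρ)) (fun r hr => ?_) ?_)
    · obtain ⟨h1, h2⟩ := Finset.mem_Icc.1 hr
      rw [if_pos h1, ← mul_pow]
      have h3 : (r : ℝ) ≤ 2 * ρ := by exact_mod_cast h2
      apply inv_anti₀ (by positivity)
      exact pow_le_pow_left₀ (by positivity) (by linarith) d
    · have := (Finset.mem_Icc.1 hr).2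
      exact Finset.mem_range.2 (by omega)
    · intro r _ _
      split_ifs
      · positivity
      · exact le_rfl
  rw [Finset.sum_const, Nat.card_Icc, show 2 * ρ + 1 - ρ = ρ + 1 by omega, nsmul_eq_mul] at h1
  refine le_trans (le_of_eq ?_) (mul_le_mul_of_nonneg_left h1 (by positivity))
  push_cast
  field_simp
  ring

lemma card_box (U : Finset (Fin d → ℤ)) (r : ℕ) :
    (U.filter (fun x => nrm x ≤ r)).card ≤ (2 * r + 1) ^ d := by
  have h1 : U.filter (fun x => nrm x ≤ r) ⊆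
      Fintype.piFinset (fun _ : Fin d => Finset.Icc (-(r : ℤ)) r) := by
    intro x hx
    rw [Fintype.mem_piFinset]
    intro j
    exact Finset.mem_Icc.2 (abs_le.1 ((nrm_le_iff x r).1 (Finset.mem_filter.1 hx).2 j))
  refine (Finset.card_le_card h1).trans (le_of_eq ?_)
  rw [Fintype.card_piFinset]
  simp only [Int.card_Icc, Finset.prod_const, Finset.card_univ, Fintype.card_fin]
  congr 1
  omega

lemma finite_box (r : ℕ) : {x : Fin d → ℤ | ∀ i, |x i| ≤ r}.Finite := by
  refine (Set.finite_Icc (fun _ => -(r : ℤ)) (fun _ => (r : ℤ))).subset fun x hx => ?_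
  exact ⟨fun i => (abs_le.1 (hx i)).1, fun i => (abs_le.1 (hx i)).2⟩

open Classical in
lemma card_comp {ρ₀ : (Fin d → ℤ) → Fin d × Bool} {L : ℝ} {r : ℕ}
    (h : ∀ y, (({x | Merge ρ₀ x y ∧ ∀ i, |x i| ≤ r}.ncard : ℕ) : ℝ) ≤ L)
    (P S : Finset (Fin d → ℤ)) :
    (((S.filter (InC ρ₀ P)).filter (fun x => nrm x ≤ r)).card : ℝ) ≤ P.card * L := by
  have hfin : ∀ y, {x | Merge ρ₀ x y ∧ ∀ i, |x i| ≤ r}.Finite :=
    fun y => (finite_box r).subset fun x hx => hx.2
  have h1 : (S.filter (InC ρ₀ P)).filter (fun x => nrm x ≤ r) ⊆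
      P.biUnion (fun y => (hfin y).toFinset) := by
    intro x hx
    obtain ⟨hx1, hx2⟩ := Finset.mem_filter.1 hx
    obtain ⟨p, hp, hm⟩ := (Finset.mem_filter.1 hx1).2
    exact Finset.mem_biUnion.2 ⟨p, hp, (Set.Finite.mem_toFinset _).2
      ⟨hm, (nrm_le_iff x r).1 hx2⟩⟩
  have h2 := (Finset.card_le_card h1).trans Finset.card_biUnion_le
  have h3 : (((S.filter (InC ρ₀ P)).filter (fun x => nrm x ≤ r)).card : ℝ) ≤
      ∑ y ∈ P, (((hfin y).toFinset.card : ℕ) : ℝ) := by exact_mod_cast h2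
  refine h3.trans ?_
  rw [← nsmul_eq_mul, ← Finset.sum_const]
  refine Finset.sum_le_sum fun y _ => ?_
  rw [← Set.ncard_eq_toFinset_card _ (hfin y)]
  exact h y

open Classical in
lemma layer_sum {ρ₀ : (Fin d → ℤ) → Fin d × Bool} {s K : ℝ} (hs : s < d - 1)
    (hgrow : ∀ y, ∀ r : ℕ, 1 ≤ r →
      (({x | Merge ρ₀ x y ∧ ∀ i, |x i| ≤ r}.ncard : ℕ) : ℝ) ≤ K * (r : ℝ) ^ s)
    (N : ℕ) (P : Finset (Fin d → ℤ)) (hP : P.card ≤ N) (S : Finset (Fin d → ℤ)) :
    ∑ x ∈ S, (if InC ρ₀ P x then (1 + (nrm x : ℝ)) * ((1 + (nrm x : ℝ)) ^ d)⁻¹ else 0) ≤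
      2 ^ d * (3 * 2 ^ d + K / (d - s - 1)) * (N : ℝ) ^ (1 / (d - s)) := by
  set b : ℝ := d - s with hb
  have hb1 : 1 < b := by linarith
  have hK : 0 ≤ K := by
    have := hgrow 0 1 le_rfl
    simp only [Nat.cast_one, Real.one_rpow, mul_one] at this
    exact le_trans (Nat.cast_nonneg _) this
  have hKb : 0 ≤ K / (b - 1) := div_nonneg hK (by linarith)
  rcases Nat.eq_zero_or_pos N with hN | hN
  · have hPe : P = ∅ := Finset.card_eq_zero.1 (by omega)
    have : ∀ x, ¬ InC ρ₀ P x := by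
      rintro x ⟨p, hp, -⟩
      simp [hPe] at hp
    simp only [this, if_false, Finset.sum_const_zero]
    positivity
  have hNR : (1 : ℝ) ≤ N := by exact_mod_cast hN
  set θ : ℝ := 1 / b with hθ
  have hθ0 : 0 < θ := by positivity
  set T : ℝ := (N : ℝ) ^ θ with hT
  have hT1 : 1 ≤ T := Real.one_le_rpow hNR hθ0.le
  set R : ℕ := ⌈T⌉₊ with hR
  have hTR : T ≤ R := Nat.le_ceil T
  have hRT : (R : ℝ) < T + 1 := Nat.ceil_lt_add_one (by linarith)
  have hR1 : 1 ≤ R := by exact_mod_cast hT1.trans hTR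
  set U := S.filter (InC ρ₀ P) with hU
  set M : ℕ := 2 * S.sup nrm + 1 with hM
  rw [← Finset.sum_filter, ← hU]
  have h1 : ∑ x ∈ U, (1 + (nrm x : ℝ)) * ((1 + (nrm x : ℝ)) ^ d)⁻¹ ≤
      ∑ x ∈ U, 2 ^ d * ∑ r ∈ Finset.range M,
        (if nrm x ≤ r then ((1 + (r : ℝ)) ^ d)⁻¹ else 0) := by
    refine Finset.sum_le_sum fun x hx => layer_pt _ _ ?_
    have : nrm x ≤ S.sup nrm := Finset.le_sup (f := nrm) (Finset.mem_filter.1 hx).1
    omega
  refine h1.trans ?_
  rw [← Finset.mul_sum, Finset.sum_comm, mul_assoc]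
  refine mul_le_mul_of_nonneg_left ?_ (by positivity)
  have h2 : ∀ r ∈ Finset.range M,
      ∑ x ∈ U, (if nrm x ≤ r then ((1 + (r : ℝ)) ^ d)⁻¹ else 0) ≤
        (if r ≤ R then (2 : ℝ) ^ d else 0) + N * K * (if R < r then (r : ℝ) ^ (-b) else 0) := by
    intro r _
    rw [← Finset.sum_filter, Finset.sum_const, nsmul_eq_mul]
    have hp : (0 : ℝ) < (1 + (r : ℝ)) ^ d := by positivity
    by_cases hr : r ≤ R
    · rw [if_pos hr, if_neg (by omega), mul_zero, add_zero, ← div_eq_mul_inv, div_le_iff₀ hp,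
        ← mul_pow]
      have h3 : ((U.filter (fun x => nrm x ≤ r)).card : ℝ) ≤ (2 * r + 1) ^ d := by
        exact_mod_cast card_box U r
      exact h3.trans (pow_le_pow_left₀ (by positivity) (by linarith) d)
    · rw [if_neg hr, if_pos (by omega), zero_add]
      have hr1 : 1 ≤ r := by omega
      have hr0 : (0 : ℝ) < r := by exact_mod_cast hr1
      have h3 := card_comp (fun y => hgrow y r hr1) P S
      have h4 : (P.card : ℝ) ≤ N := by exact_mod_cast hP
      have h5 : ((1 + (r : ℝ)) ^ d)⁻¹ ≤ (r : ℝ) ^ (-(d : ℝ)) := by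
        rw [Real.rpow_neg hr0.le, Real.rpow_natCast]
        apply inv_anti₀ (by positivity)
        exact pow_le_pow_left₀ hr0.le (by linarith) d
      have h6 : 0 ≤ K * (r : ℝ) ^ s := mul_nonneg hK (Real.rpow_nonneg hr0.le _)
      calc _ ≤ (N * (K * (r : ℝ) ^ s)) * (r : ℝ) ^ (-(d : ℝ)) := by
            refine mul_le_mul (h3.trans (mul_le_mul_of_nonneg_right h4 h6)) h5 (by positivity)
              (by positivity)
        _ = N * K * ((r : ℝ) ^ s * (r : ℝ) ^ (-(d : ℝ))) := by ring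
        _ = _ := by
            rw [← Real.rpow_add hr0]; congr 2; rw [hb]; ring
  refine (Finset.sum_le_sum h2).trans ?_
  rw [Finset.sum_add_distrib, ← Finset.mul_sum, ← Finset.sum_filter, Finset.sum_const,
    nsmul_eq_mul]
  have h3 : (((Finset.range M).filter (fun r => r ≤ R)).card : ℝ) ≤ R + 1 := by
    have : ((Finset.range M).filter (fun r => r ≤ R)).card ≤ (Finset.range (R + 1)).card :=
      Finset.card_le_card fun r hr => Finset.mem_range.2 (by
        have := (Finset.mem_filter.1 hr).2; omega)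
    rw [Finset.card_range] at this
    exact_mod_cast this
  have h4 := tail_sum hb1 hR1 M
  have h5 : (R : ℝ) ^ (1 - b) ≤ T ^ (1 - b) :=
    Real.rpow_le_rpow_of_nonpos (by linarith) hTR (by linarith)
  have h6 : (N : ℝ) * T ^ (1 - b) = T := by
    rw [hT, ← Real.rpow_mul (by linarith), ← Real.rpow_one_add' (by linarith)]
    · congr 1; rw [hθ]; field_simp; ring
    · have : 1 + θ * (1 - b) = θ := by rw [hθ]; field_simp; ring
      rw [this]; exact hθ0.ne'
  have h7 : N * K * ∑ r ∈ Finset.range M, (if R < r then (r : ℝ) ^ (-b) else 0) ≤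
      K / (b - 1) * T := by
    calc _ ≤ N * K * (T ^ (1 - b) / (b - 1)) := by
          refine mul_le_mul_of_nonneg_left (h4.trans ?_) (by positivity)
          exact div_le_div_of_nonneg_right h5 (by linarith)
      _ = K / (b - 1) * (N * T ^ (1 - b)) := by ring
      _ = _ := by rw [h6]
  have h8 : (((Finset.range M).filter (fun r => r ≤ R)).card : ℝ) * 2 ^ d ≤ 3 * T * 2 ^ d :=
    mul_le_mul_of_nonneg_right (by linarith) (by positivity)
  nlinarith

end Pool.Agent.Lib.MP_b041da_pr
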