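import Mathlib

set_option autoImplicit false

namespace Pool.Agent.Lib.MP_b041da_pr

lemma mvt_step {f f' : ℝ → ℝ} {M : ℝ} {k : ℕ} (hM : 0 ≤ M) (h0 : f 0 = 0)
    (hf : ∀ t, |t| ≤ 1 / 2 → HasDerivAt f (f' t) t)
    (hb : ∀ t, |t| ≤ 1 / 2 → |f' t| ≤ M * |t| ^ k) :
    ∀ t, |t| ≤ 1 / 2 → |f t| ≤ M * |t| ^ (k + 1) := by
  intro t ht
  have hsub : ∀ u ∈ Set.Icc (-|t|) |t|, |u| ≤ |t| := fun u hu => abs_le.2 hu
  have := Convex.norm_image_sub_le_of_norm_hasDerivWithin_le (f := f) (f' := f')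
    (s := Set.Icc (-|t|) |t|) (C := M * |t| ^ k) (x := 0) (y := t)
    (fun u hu => (hf u ((hsub u hu).trans ht)).hasDerivWithinAt)
    (fun u hu => by
      rw [Real.norm_eq_abs]
      refine (hb u ((hsub u hu).trans ht)).trans ?_
      exact mul_le_mul_of_nonneg_left (pow_le_pow_left₀ (abs_nonneg u) (hsub u hu) k) hM)
    (convex_Icc _ _) ⟨by linarith [abs_nonneg t], abs_nonneg t⟩ ⟨neg_abs_le t, le_abs_self t⟩
  rw [h0, sub_zero, sub_zero, Real.norm_eq_abs, Real.norm_eq_abs] at this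
  rw [pow_succ, ← mul_assoc]
  exact this

lemma hasDerivAt_P (a : ℝ) {t : ℝ} (ht : |t| ≤ 1 / 2) :
    HasDerivAt (fun t : ℝ => (1 + t) ^ (-a)) (-a * (1 + t) ^ (-(a + 1))) t := by
  have hpos : 0 < 1 + t := by linarith [(abs_le.1 ht).1]
  have h1 : HasDerivAt (fun t : ℝ => 1 + t) 1 t := (hasDerivAt_id t).const_add 1
  have := h1.rpow_const (p := -a) (Or.inl hpos.ne')
  convert this using 1
  rw [show -a - 1 = -(a + 1) by ring]; ring

lemma taylor0 (a : ℝ) (ha : 0 ≤ a) :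
    ∃ M, 0 ≤ M ∧ ∀ t : ℝ, |t| ≤ 1 / 2 → |(1 + t) ^ (-a)| ≤ M * |t| ^ 0 := by
  refine ⟨(1 / 2 : ℝ) ^ (-a), Real.rpow_nonneg (by norm_num) _, fun t ht => ?_⟩
  have hpos : 1 / 2 ≤ 1 + t := by linarith [(abs_le.1 ht).1]
  rw [pow_zero, mul_one, abs_of_nonneg (Real.rpow_nonneg (by linarith) _)]
  exact Real.rpow_le_rpow_of_nonpos (by norm_num) hpos (by linarith)

lemma taylor1 (a : ℝ) (ha : 0 ≤ a) :
    ∃ M, 0 ≤ M ∧ ∀ t : ℝ, |t| ≤ 1 / 2 → |(1 + t) ^ (-a) - 1| ≤ M * |t| ^ 1 := by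
  obtain ⟨M, hM, h⟩ := taylor0 (a + 1) (by linarith)
  refine ⟨a * M, by positivity, mvt_step (f' := fun t => -a * (1 + t) ^ (-(a + 1)))
    (by positivity) (by simp) (fun t ht => (hasDerivAt_P a ht).sub_const 1) fun t ht => ?_⟩
  rw [abs_mul, abs_neg, abs_of_nonneg ha, mul_assoc]
  exact mul_le_mul_of_nonneg_left (h t ht) ha

lemma taylor2 (a : ℝ) (ha : 0 ≤ a) :
    ∃ M, 0 ≤ M ∧ ∀ t : ℝ, |t| ≤ 1 / 2 → |(1 + t) ^ (-a) - 1 + a * t| ≤ M * |t| ^ 2 := by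
  obtain ⟨M, hM, h⟩ := taylor1 (a + 1) (by linarith)
  refine ⟨a * M, by positivity, mvt_step (f' := fun t => -a * ((1 + t) ^ (-(a + 1)) - 1))
    (by positivity) (by simp) (fun t ht => ?_) fun t ht => ?_⟩
  · have := ((hasDerivAt_P a ht).sub_const 1).add ((hasDerivAt_id t).const_mul a)
    refine HasDerivAt.congr_deriv this ?_
    ring
  · rw [abs_mul, abs_neg, abs_of_nonneg ha, mul_assoc]
    exact mul_le_mul_of_nonneg_left (h t ht) ha

lemma taylor3 (a : ℝ) (ha : 0 ≤ a) :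
    ∃ M, 0 ≤ M ∧ ∀ t : ℝ, |t| ≤ 1 / 2 →
      |(1 + t) ^ (-a) - 1 + a * t - a * (a + 1) / 2 * t ^ 2| ≤ M * |t| ^ 3 := by
  obtain ⟨M, hM, h⟩ := taylor2 (a + 1) (by linarith)
  refine ⟨a * M, by positivity,
    mvt_step (f' := fun t => -a * ((1 + t) ^ (-(a + 1)) - 1 + (a + 1) * t))
    (by positivity) (by simp) (fun t ht => ?_) fun t ht => ?_⟩
  · have := (((hasDerivAt_P a ht).sub_const 1).add ((hasDerivAt_id t).const_mul a)).sub
      ((hasDerivAt_pow 2 t).const_mul (a * (a + 1) / 2))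
    refine HasDerivAt.congr_deriv this ?_
    push_cast
    ring
  · rw [abs_mul, abs_neg, abs_of_nonneg ha, mul_assoc]
    exact mul_le_mul_of_nonneg_left (h t ht) ha

lemma taylor4 (a : ℝ) (ha : 0 ≤ a) :
    ∃ M, 0 ≤ M ∧ ∀ t : ℝ, |t| ≤ 1 / 2 →
      |(1 + t) ^ (-a) - 1 + a * t - a * (a + 1) / 2 * t ^ 2 +
        a * (a + 1) * (a + 2) / 6 * t ^ 3| ≤ M * |t| ^ 4 := by
  obtain ⟨M, hM, h⟩ := taylor3 (a + 1) (by linarith)
  refine ⟨a * M, by positivity,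
    mvt_step (f' := fun t => -a * ((1 + t) ^ (-(a + 1)) - 1 + (a + 1) * t -
      (a + 1) * (a + 1 + 1) / 2 * t ^ 2))
    (by positivity) (by simp) (fun t ht => ?_) fun t ht => ?_⟩
  · have := ((((hasDerivAt_P a ht).sub_const 1).add ((hasDerivAt_id t).const_mul a)).sub
      ((hasDerivAt_pow 2 t).const_mul (a * (a + 1) / 2))).add
      ((hasDerivAt_pow 3 t).const_mul (a * (a + 1) * (a + 2) / 6))
    refine HasDerivAt.congr_deriv this ?_
    push_cast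
    ring
  · rw [abs_mul, abs_neg, abs_of_nonneg ha, mul_assoc]
    exact mul_le_mul_of_nonneg_left (h t ht) ha

end Pool.Agent.Lib.MP_b041da_pr
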