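import Pool.Agent.Lib.MP_b041da_pr.Barrier
import Pool.Agent.Lib.MP_b041da_pr.Taylor

set_option autoImplicit false

namespace Pool.Agent.Lib.MP_b041da_pr

open Filter Topology

variable {d : ℕ}

lemma pair_bounds {a M u z : ℝ} (ha : 0 ≤ a) (hM : 0 ≤ M)
    (hT : ∀ t : ℝ, |t| ≤ 1 / 2 → |(1 + t) ^ (-a) - 1 + a * t - a * (a + 1) / 2 * t ^ 2 +
        a * (a + 1) * (a + 2) / 6 * t ^ 3| ≤ M * |t| ^ 4)
    (hu0 : 0 < u) (hu : u ≤ 1 / 32) (hz : (z ^ 2 + 1 / 4) * u ≤ 1) :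
    (1 + (1 + 2 * z) * u) ^ (-a) + (1 + (1 - 2 * z) * u) ^ (-a) - 2 ≤
        -2 * a * u + a * (a + 1) / 2 * (2 + 8 * z ^ 2) * u ^ 2 + 128 * M * u ^ 2 ∧
      (1 / 2 ≤ z → (1 + (1 + 2 * z) * u) ^ (-a) - (1 + (1 - 2 * z) * u) ^ (-a) ≤
        z * (-4 * a * u + (4 * a * (a + 1) + 256 * M) * u ^ 2)) := by
  have key : ∀ w : ℝ, w ^ 2 = z ^ 2 → |(1 + 2 * w) * u| ≤ 1 / 2 ∧
      M * |(1 + 2 * w) * u| ^ 4 ≤ 64 * M * u ^ 2 := by
    intro w hw
    have h1 : ((1 + 2 * w) * u) ^ 2 ≤ 8 * u := by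
      have h2 : (1 + 2 * w) ^ 2 ≤ 8 * (z ^ 2 + 1 / 4) := by nlinarith [sq_nonneg (1 - 2 * w)]
      calc ((1 + 2 * w) * u) ^ 2 = (1 + 2 * w) ^ 2 * u * u := by ring
        _ ≤ 8 * (z ^ 2 + 1 / 4) * u * u := by gcongr
        _ = 8 * ((z ^ 2 + 1 / 4) * u) * u := by ring
        _ ≤ 8 * 1 * u := by gcongr
        _ = 8 * u := by ring
    constructor
    · apply abs_le_of_sq_le_sq' _ (by norm_num) |> abs_le.2
      linarith
    · have h3 : |(1 + 2 * w) * u| ^ 4 = (((1 + 2 * w) * u) ^ 2) ^ 2 := by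
        rw [← sq_abs ((1 + 2 * w) * u)]; ring
      rw [h3]
      have h4 : (((1 + 2 * w) * u) ^ 2) ^ 2 ≤ (8 * u) ^ 2 :=
        pow_le_pow_left₀ (sq_nonneg _) h1 2
      calc M * (((1 + 2 * w) * u) ^ 2) ^ 2 ≤ M * (8 * u) ^ 2 := by gcongr
        _ = 64 * M * u ^ 2 := by ring
  obtain ⟨hp1, hp2⟩ := key z rfl
  obtain ⟨hm1, hm2⟩ := key (-z) (by ring)
  rw [show (1 + 2 * -z) = 1 - 2 * z by ring] at hm1 hm2
  have hp := abs_le.1 ((hT _ hp1).trans hp2)
  have hm := abs_le.1 ((hT _ hm1).trans hm2)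
  have hB : 0 ≤ a * (a + 1) * (a + 2) / 6 := by positivity
  constructor
  · have h3 : 0 ≤ a * (a + 1) * (a + 2) / 6 * ((2 + 24 * z ^ 2) * u ^ 3) := by positivity
    nlinarith [hp.2, hm.2]
  · intro hz2
    have hz0 : 0 ≤ z := by linarith
    have h3 : 0 ≤ a * (a + 1) * (a + 2) / 6 * ((12 * z + 16 * z ^ 3) * u ^ 3) := by positivity
    have h4 : 0 ≤ M * u ^ 2 * (2 * z - 1) := mul_nonneg (by positivity) (by linarith)
    nlinarith [hp.2, hm.1]

/-- coordinates of `x + e_i / 2` -/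
noncomputable def zc (i : Fin d) (x : Fin d → ℤ) (j : Fin d) : ℝ :=
  (x j : ℝ) + if j = i then 1 / 2 else 0

/-- `c + |x + e_i / 2|^2` -/
noncomputable def ST (c : ℝ) (i : Fin d) (x : Fin d → ℤ) : ℝ := c + ∑ j, zc i x j ^ 2

/-- the odd barrier -/
noncomputable def bb (c : ℝ) (i : Fin d) (x : Fin d → ℤ) : ℝ :=
  zc i x i * ST c i x ^ (-((d : ℝ) / 2))

lemma zc_add_vec (i : Fin d) (x : Fin d → ℤ) (e : Fin d × Bool) (j : Fin d) :
    zc i (x + vec e) j = zc i x j + if j = e.1 then (if e.2 then 1 else -1) else 0 := by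
  unfold zc
  by_cases hj : j = e.1
  · subst hj
    simp only [vec, Pi.add_apply, Pi.single_eq_same, if_true]
    split_ifs <;> push_cast <;> ring
  · simp [vec, hj]

lemma ST_add_vec (c : ℝ) (i : Fin d) (x : Fin d → ℤ) (e : Fin d × Bool) :
    ST c i (x + vec e) = ST c i x + (1 + 2 * (if e.2 then 1 else -1) * zc i x e.1) := by
  unfold ST
  have : ∀ j, zc i (x + vec e) j ^ 2 = zc i x j ^ 2 +
      (if j = e.1 then 1 + 2 * (if e.2 then 1 else -1) * zc i x e.1 else 0) := by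
    intro j
    rw [zc_add_vec]
    by_cases hj : j = e.1
    · subst hj
      simp only [if_true]
      split_ifs <;> ring
    · simp [hj]
  simp_rw [this]
  rw [Finset.sum_add_distrib, Finset.sum_ite_eq']
  simp; ring

lemma ST_ge_sq (c : ℝ) (i : Fin d) (x : Fin d → ℤ) (j : Fin d) : c + zc i x j ^ 2 ≤ ST c i x := by
  have : zc i x j ^ 2 ≤ ∑ j, zc i x j ^ 2 :=
    Finset.single_le_sum (f := fun j => zc i x j ^ 2) (fun j _ => sq_nonneg _) (Finset.mem_univ j)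
  unfold ST; linarith

lemma exists_lap_bb (hd : 3 ≤ d) : ∃ c : ℝ, 32 ≤ c ∧
    ∀ (i : Fin d) (x : Fin d → ℤ), 0 ≤ x i → lap (bb c i) x ≤ 0 := by
  have hdR : (3 : ℝ) ≤ d := by exact_mod_cast hd
  set a : ℝ := (d : ℝ) / 2 with ha
  have ha0 : 0 ≤ a := by positivity
  obtain ⟨M, hM, hT⟩ := taylor4 a ha0
  set c : ℝ := 32 + (a * (a + 1) * d + 128 * M * d + 4 * a * (a + 1) + 256 * M) with hc
  have hc0 : 0 ≤ a * (a + 1) * d + 128 * M * d + 4 * a * (a + 1) + 256 * M := by positivity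
  refine ⟨c, by linarith, fun i x hx => ?_⟩
  have hc32 : 32 ≤ c := by linarith
  set S := ST c i x with hS
  have hS32 : 32 ≤ S := by nlinarith [ST_ge_sq c i x i, sq_nonneg (zc i x i)]
  have hS0 : 0 < S := by linarith
  set u := S⁻¹ with hu
  have hu0 : 0 < u := inv_pos.2 hS0
  have huS : S * u = 1 := mul_inv_cancel₀ hS0.ne'
  have hu32 : u ≤ 1 / 32 := by
    rw [hu, inv_eq_one_div]; exact one_div_le_one_div_of_le (by norm_num) hS32
  have hzu : ∀ j, (zc i x j ^ 2 + 1 / 4) * u ≤ 1 := fun j => by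
    rw [← huS]
    exact mul_le_mul_of_nonneg_right (by linarith [ST_ge_sq c i x j]) hu0.le
  have hzi : 1 / 2 ≤ zc i x i := by
    have : (0 : ℝ) ≤ x i := by exact_mod_cast hx
    simp only [zc, if_true]; linarith
  have hF : 0 < S ^ (-a) := Real.rpow_pos_of_pos hS0 _
  have hshift : ∀ e : Fin d × Bool, ST c i (x + vec e) ^ (-a) =
      S ^ (-a) * (1 + (1 + 2 * (if e.2 then 1 else -1) * zc i x e.1) * u) ^ (-a) := by
    intro e
    have h1 : ST c i (x + vec e) =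
        S * (1 + (1 + 2 * (if e.2 then 1 else -1) * zc i x e.1) * u) := by
      rw [ST_add_vec, ← hS, mul_add, mul_one, mul_comm _ u, ← mul_assoc, huS, one_mul]
    have h2 : 0 < ST c i (x + vec e) := by
      nlinarith [ST_ge_sq c i (x + vec e) i, sq_nonneg (zc i (x + vec e) i)]
    rw [h1] at h2 ⊢
    exact Real.mul_rpow hS0.le (pos_of_mul_pos_left (by rwa [mul_comm] at h2) hS0.le).le
  unfold lap
  apply div_nonpos_of_nonpos_of_nonneg _ (by positivity)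
  rw [Fintype.sum_prod_type]
  have hj : ∀ j : Fin d, ∑ b : Bool, (bb c i (x + vec (j, b)) - bb c i x) ≤
      S ^ (-a) * zc i x i * ((-2 * a * u + a * (a + 1) / 2 * (2 + 8 * zc i x j ^ 2) * u ^ 2 +
        128 * M * u ^ 2) +
        if j = i then (-4 * a * u + (4 * a * (a + 1) + 256 * M) * u ^ 2) else 0) := by
    intro j
    obtain ⟨h1, h2⟩ := pair_bounds ha0 hM hT hu0 hu32 (hzu j)
    simp only [Fintype.sum_bool, bb, ← ha, hshift, zc_add_vec, ← hS, if_true,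
      Bool.false_eq_true, if_false]
    rw [show (1 + 2 * (1 : ℝ) * zc i x j) = 1 + 2 * zc i x j by ring,
      show (1 + 2 * (-1 : ℝ) * zc i x j) = 1 - 2 * zc i x j by ring]
    have h3 := mul_le_mul_of_nonneg_left h1 (mul_nonneg hF.le (by linarith : 0 ≤ zc i x i))
    by_cases hji : j = i
    · subst hji
      have h4 := mul_le_mul_of_nonneg_left (h2 hzi) hF.le
      simp only [if_true]
      nlinarith
    · have hij : ¬ i = j := fun h => hji h.symm
      simp only [if_neg hji, if_neg hij]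
      nlinarith
  refine (Finset.sum_le_sum fun j _ => hj j).trans ?_
  rw [← Finset.mul_sum]
  apply mul_nonpos_of_nonneg_of_nonpos (mul_nonneg hF.le (by linarith))
  rw [Finset.sum_add_distrib, Finset.sum_ite_eq']
  have hsum : ∑ j, (-2 * a * u + a * (a + 1) / 2 * (2 + 8 * zc i x j ^ 2) * u ^ 2 +
      128 * M * u ^ 2) = d * (-2 * a * u + a * (a + 1) * u ^ 2 + 128 * M * u ^ 2) +
        4 * a * (a + 1) * u ^ 2 * (S - c) := by
    have h5 : S - c = ∑ j, zc i x j ^ 2 := by rw [hS, ST]; ring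
    rw [h5, Finset.mul_sum]
    have h6 : (d : ℝ) * (-2 * a * u + a * (a + 1) * u ^ 2 + 128 * M * u ^ 2) =
        ∑ _j : Fin d, (-2 * a * u + a * (a + 1) * u ^ 2 + 128 * M * u ^ 2) := by
      rw [Finset.sum_const, Finset.card_univ, Fintype.card_fin, nsmul_eq_mul]
    rw [h6, ← Finset.sum_add_distrib]
    exact Finset.sum_congr rfl fun j _ => by ring
  rw [hsum]
  simp only [Finset.mem_univ, if_true]
  have hd2 : (d : ℝ) = 2 * a := by rw [ha]; ring
  have h7 : u ^ 2 * S = u := by rw [sq, mul_assoc, mul_comm u S, huS, mul_one]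
  have h8 : 1 ≤ 4 * a * (a + 1) := by nlinarith
  have h9 : a * (a + 1) * d + 128 * M * d + 4 * a * (a + 1) + 256 * M ≤ 4 * a * (a + 1) * c := by
    nlinarith
  have h10 := mul_le_mul_of_nonneg_left h9 (sq_nonneg u)
  have h11 : 4 * a * (a + 1) * u ^ 2 * (S - c) =
      4 * a * (a + 1) * u - u ^ 2 * (4 * a * (a + 1) * c) := by
    calc _ = 4 * a * (a + 1) * (u ^ 2 * S) - u ^ 2 * (4 * a * (a + 1) * c) := by ring
      _ = _ := by rw [h7]
  rw [h11]
  have h12 : (d : ℝ) * (-2 * a * u) + 4 * a * (a + 1) * u - 4 * a * u = 0 := by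
    rw [hd2]; ring
  nlinarith

end Pool.Agent.Lib.MP_b041da_pr
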