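import Pool.Agent.Lib.MP_b041da_pr.Walk

set_option autoImplicit false

namespace Pool.Agent.Lib.MP_b041da_pr

open Filter Topology

lemma exists_weight {A : Type*} [Fintype A] [Nonempty A] (σ : Equiv.Perm A)
    (hσ : σ.IsCycleOn Set.univ) (a : A → ℝ) (ha : ∑ e, a e = 0) :
    ∃ w : A → ℝ, (∀ e, w e - w (σ e) = a e) ∧ ∀ e, |w e| ≤ ∑ e', |a e'| := by
  classical
  have hσ' : σ.IsCycleOn (Finset.univ : Finset A) := by simpa using hσ
  set D := Fintype.card A with hD
  have hDpos : 0 < D := Fintype.card_pos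
  have hDR : (0 : ℝ) < D := by exact_mod_cast hDpos
  have hsum : ∀ (g : A → ℝ) (e : A), ∑ j ∈ Finset.range D, g ((σ ^ j) e) = ∑ e', g e' := by
    intro g e
    rw [← Fin.sum_univ_eq_sum_range (fun j => g ((σ ^ j) e))]
    have hb : Function.Bijective (fun j : Fin D => (σ ^ (j : ℕ)) e) := by
      rw [Fintype.bijective_iff_surjective_and_card]
      refine ⟨fun b => ?_, by simp [hD]⟩
      obtain ⟨n, hn, h⟩ := hσ'.exists_pow_eq (Finset.mem_univ e) (Finset.mem_univ b)
      exact ⟨⟨n, by simpa using hn⟩, h⟩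
    exact hb.sum_comp g
  have hper : ∀ e, (σ ^ D) e = e := fun e => by
    simpa using hσ'.pow_card_apply (Finset.mem_univ e)
  refine ⟨fun e => -(∑ j ∈ Finset.range D, (j : ℝ) * a ((σ ^ j) e)) / D, fun e => ?_, fun e => ?_⟩
  · have h1 : ∑ j ∈ Finset.range D, (j : ℝ) * a ((σ ^ j) (σ e)) =
        ∑ j ∈ Finset.range D, (j : ℝ) * a ((σ ^ j) e) + D * a e := by
      have h2 : ∑ j ∈ Finset.range (D + 1), (j : ℝ) * a ((σ ^ j) e) =
          ∑ j ∈ Finset.range D, (j : ℝ) * a ((σ ^ j) e) + D * a e := by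
        rw [Finset.sum_range_succ, hper]
      rw [Finset.sum_range_succ'] at h2
      have h3 : ∑ j ∈ Finset.range D, ((j + 1 : ℕ) : ℝ) * a ((σ ^ (j + 1)) e) =
          ∑ j ∈ Finset.range D, (j : ℝ) * a ((σ ^ j) (σ e)) +
            ∑ j ∈ Finset.range D, a ((σ ^ j) (σ e)) := by
        rw [← Finset.sum_add_distrib]
        refine Finset.sum_congr rfl fun j _ => ?_
        rw [pow_succ, Equiv.Perm.mul_apply]; push_cast; ring
      rw [h3, hsum a, ha] at h2
      simpa using h2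
    simp only
    rw [h1]
    field_simp
    ring
  · simp only
    rw [abs_div, abs_neg, abs_of_pos hDR, div_le_iff₀ hDR, ← hsum (fun e => |a e|) e,
      Finset.sum_mul]
    refine (Finset.abs_sum_le_sum_abs _ _).trans (Finset.sum_le_sum fun j hj => ?_)
    rw [abs_mul, Nat.abs_cast, mul_comm]
    have : (j : ℝ) ≤ D := by exact_mod_cast (Finset.mem_range.1 hj).le
    gcongr

variable {d : ℕ} {m : (Fin d → ℤ) → Equiv.Perm (Fin d × Bool)} {ρ : (Fin d → ℤ) → Fin d × Bool}

/-- discrete Laplacian -/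
noncomputable def lap (f : (Fin d → ℤ) → ℝ) (x : Fin d → ℤ) : ℝ :=
  (∑ e : Fin d × Bool, (f (x + vec e) - f x)) / (2 * d)

lemma exists_site_weight (hd : 0 < d) (hm : ∀ x, (m x).IsCycleOn Set.univ)
    (f : (Fin d → ℤ) → ℝ) (B : (Fin d → ℤ) → ℝ) (hB : ∀ x e, |f (x + vec e) - f x| ≤ B x) :
    ∃ w : (Fin d → ℤ) → Fin d × Bool → ℝ,
      (∀ x e, f (x + vec e) + w x (m x e) = f x + lap f x + w x e) ∧
      ∀ x e, |w x e| ≤ 4 * d * B x := by
  have : Nonempty (Fin d × Bool) := ⟨(⟨0, hd⟩, true)⟩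
  have hdR : (0 : ℝ) < d := by exact_mod_cast hd
  have hlap : ∀ x, |lap f x| ≤ B x := by
    intro x
    rw [lap, abs_div, abs_of_pos (by positivity : (0 : ℝ) < 2 * d), div_le_iff₀ (by positivity)]
    refine (Finset.abs_sum_le_sum_abs _ _).trans ?_
    refine (Finset.sum_le_sum fun e _ => hB x e).trans ?_
    simp; linarith
  have key : ∀ x, ∃ w : Fin d × Bool → ℝ,
      (∀ e, f (x + vec e) + w (m x e) = f x + lap f x + w e) ∧ ∀ e, |w e| ≤ 4 * d * B x := by
    intro x
    obtain ⟨w, h1, h2⟩ := exists_weight (m x) (hm x) (fun e => f (x + vec e) - f x - lap f x) (by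
      rw [Finset.sum_sub_distrib, lap]
      simp only [Finset.sum_const, Finset.card_univ, Fintype.card_prod, Fintype.card_fin,
        Fintype.card_bool, nsmul_eq_mul]
      push_cast
      field_simp
      ring)
    refine ⟨w, fun e => by linarith [h1 e], fun e => (h2 e).trans ?_⟩
    have : ∀ e' : Fin d × Bool, |f (x + vec e') - f x - lap f x| ≤ 2 * B x := fun e' =>
      (abs_sub _ _).trans (by linarith [hB x e', hlap x])
    refine (Finset.sum_le_sum fun e _ => this e).trans ?_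
    simp; linarith
  choose w hw using key
  exact ⟨w, fun x => (hw x).1, fun x => (hw x).2⟩

lemma column_sum (e₀ : Fin d × Bool) {β : (Fin d → ℤ) → ℝ} {γ : ℤ → ℝ} (hβ : ∀ c, 0 ≤ β c)
    (hγ : ∀ h, 0 ≤ γ h) (hs : Summable γ) (C : Finset (Fin d → ℤ)) :
    Summable (fun x => if col e₀ x ∈ C then β (col e₀ x) * γ (x e₀.1) else 0) ∧
    ∑' x, (if col e₀ x ∈ C then β (col e₀ x) * γ (x e₀.1) else 0) ≤ (∑ c ∈ C, β c) * ∑' h, γ h := by
  classical
  have hnn : ∀ x, 0 ≤ (if col e₀ x ∈ C then β (col e₀ x) * γ (x e₀.1) else 0) := by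
    intro x; split_ifs
    · exact mul_nonneg (hβ _) (hγ _)
    · exact le_rfl
  have key : ∀ S : Finset (Fin d → ℤ),
      ∑ x ∈ S, (if col e₀ x ∈ C then β (col e₀ x) * γ (x e₀.1) else 0) ≤
        (∑ c ∈ C, β c) * ∑' h, γ h := by
    intro S
    rw [← Finset.sum_filter]
    have hinj : Set.InjOn (fun x : Fin d → ℤ => (col e₀ x, x e₀.1))
        (S.filter (fun x => col e₀ x ∈ C)) := by
      intro x _ y _ hxy
      simp only [Prod.mk.injEq] at hxy
      funext i
      by_cases hi : i = e₀.1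
      · rw [hi]; exact hxy.2
      · have := congrFun hxy.1 i
        simpa [col, Function.update_of_ne hi] using this
    rw [← Finset.sum_image (f := fun p : (Fin d → ℤ) × ℤ => β p.1 * γ p.2) hinj]
    have hsub : (S.filter (fun x => col e₀ x ∈ C)).image (fun x : Fin d → ℤ => (col e₀ x, x e₀.1))
        ⊆ C ×ˢ (S.image (fun x => x e₀.1)) := by
      intro p hp
      obtain ⟨x, hx, rfl⟩ := Finset.mem_image.1 hp
      rw [Finset.mem_filter] at hx
      exact Finset.mem_product.2 ⟨hx.2, Finset.mem_image_of_mem _ hx.1⟩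
    refine (Finset.sum_le_sum_of_subset_of_nonneg hsub
      fun p _ _ => mul_nonneg (hβ _) (hγ _)).trans ?_
    rw [Finset.sum_product' (f := fun c h => β c * γ h), ← Finset.sum_mul_sum]
    exact mul_le_mul_of_nonneg_left (hs.sum_le_tsum _ fun h _ => hγ h)
      (Finset.sum_nonneg fun c _ => hβ c)
  have hsum := summable_of_sum_le hnn key
  exact ⟨hsum, hsum.tsum_le_of_sum_le key⟩

lemma sum_le_of_tendsto {β : (Fin d → ℤ) → ℝ} (hβ : ∀ c, 0 ≤ β c)
    (h0 : Tendsto β cofinite (𝓝 0)) {ε : ℝ} (hε : 0 < ε) :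
    ∃ K, ∀ C : Finset (Fin d → ℤ), ∑ c ∈ C, β c ≤ K + ε * C.card := by
  classical
  have hfin : {c | ¬ β c < ε}.Finite := h0.eventually (gt_mem_nhds hε)
  refine ⟨∑ c ∈ hfin.toFinset, β c, fun C => ?_⟩
  rw [← Finset.sum_filter_add_sum_filter_not C (fun c => β c < ε), add_comm]
  apply add_le_add
  · apply Finset.sum_le_sum_of_subset_of_nonneg
    · intro c hc
      simp only [Set.Finite.mem_toFinset, Set.mem_ofPred_eq]
      exact (Finset.mem_filter.1 hc).2
    · exact fun c _ _ => hβ c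
  · calc ∑ c ∈ C.filter (fun c => β c < ε), β c ≤ ∑ c ∈ C.filter (fun c => β c < ε), ε :=
          Finset.sum_le_sum fun c hc => (Finset.mem_filter.1 hc).2.le
      _ = ε * (C.filter (fun c => β c < ε)).card := by simp [mul_comm]
      _ ≤ ε * C.card := by
          gcongr
          exact Finset.filter_subset _ _

/-- main potential inequality -/
theorem main_ineq (hd : 0 < d) (hm : ∀ x, (m x).IsCycleOn Set.univ) (e₀ : Fin d × Bool)
    (f : (Fin d → ℤ) → ℝ) (hf0 : Tendsto f cofinite (𝓝 0)) (hsup : ∀ x, x ≠ 0 → lap f x ≤ 0)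
    {β : (Fin d → ℤ) → ℝ} {γ : ℤ → ℝ} (hβ : ∀ c, 0 ≤ β c) (hγ : ∀ h, 0 ≤ γ h)
    (hβ0 : Tendsto β cofinite (𝓝 0)) (hs : Summable γ)
    (hgrad : ∀ x e, |f (x + vec e) - f x| ≤ β (col e₀ x) * γ (x e₀.1))
    {ε : ℝ} (hε : 0 < ε) :
    ∃ K : ℝ, ∀ n : ℕ, -K - ε * n ≤ n * lap f 0 + f 0 * escaped m (fun _ => e₀) n := by
  classical
  obtain ⟨w, hw1, hw2⟩ := exists_site_weight hd hm f _ hgrad
  let t : ((Fin d → ℤ) → Fin d × Bool) → (Fin d → ℤ) → ℝ := fun ρ x => w x (ρ x) - w x e₀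
  let bd : Finset (Fin d → ℤ) → (Fin d → ℤ) → ℝ := fun C x =>
    8 * d * (if col e₀ x ∈ C then β (col e₀ x) * γ (x e₀.1) else 0)
  have hbd : ∀ C, Summable (bd C) := fun C => (column_sum e₀ hβ hγ hs C).1.mul_left _
  have ht : ∀ ρ C, Supp e₀ ρ C → ∀ x, ‖t ρ x‖ ≤ bd C x := by
    intro ρ C hS x
    simp only [t, bd, Real.norm_eq_abs]
    split_ifs with hx
    · refine (abs_sub _ _).trans ?_
      linarith [hw2 x (ρ x), hw2 x e₀]
    · simp [hS x hx]
  have hts : ∀ ρ C, Supp e₀ ρ C → Summable (t ρ) := fun ρ C hS =>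
    Summable.of_norm_bounded (hbd C) (ht ρ C hS)
  let W : ((Fin d → ℤ) → Fin d × Bool) → ℝ := fun ρ => ∑' x, t ρ x
  have hstep : ∀ ρ C, (∀ k, Supp e₀ (walk m ρ k).2 C) → ∀ k,
      f (walk m ρ (k + 1)).1 + W (walk m ρ (k + 1)).2 =
        f (walk m ρ k).1 + lap f (walk m ρ k).1 + W (walk m ρ k).2 := by
    intro ρ C hS k
    have h1 := (hts _ C (hS k)).tsum_eq_add_tsum_ite (walk m ρ k).1
    have h2 := (hts _ C (hS (k + 1))).tsum_eq_add_tsum_ite (walk m ρ k).1
    have h3 : ∑' x, (if x = (walk m ρ k).1 then 0 else t (walk m ρ (k + 1)).2 x) =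
        ∑' x, (if x = (walk m ρ k).1 then 0 else t (walk m ρ k).2 x) := by
      congr 1; funext x
      split_ifs with hx
      · rfl
      · simp only [t, walk_rot_succ_ne k hx]
    have h4 := hw1 (walk m ρ k).1 ((walk m ρ k).2 (walk m ρ k).1)
    simp only [W]
    rw [h1, h2, h3]
    simp only [t, walk_rot_succ_self]
    rw [walk_pos_succ]
    linarith
  have hrun : ∀ ρ C, (∀ k, Supp e₀ (walk m ρ k).2 C) → ∀ k,
      (∀ j, 1 ≤ j → j < k + 1 → (walk m ρ j).1 ≠ 0) →
      f (walk m ρ (k + 1)).1 + W (walk m ρ (k + 1)).2 ≤ f 0 + lap f 0 + W ρ := by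
    intro ρ C hS k
    induction k with
    | zero => intro _; exact (hstep ρ C hS 0).le
    | succ k ih =>
      intro h
      rw [hstep ρ C hS (k + 1)]
      have h1 := ih fun j hj hjk => h j hj (by omega)
      have h2 := hsup _ (h (k + 1) (by omega) (by omega))
      linarith
  have hpart : ∀ ρ C, Supp e₀ ρ C →
      W (next m ρ) ≤ W ρ + lap f 0 + f 0 * (if Escapes m ρ then 1 else 0) := by
    intro ρ C hS
    obtain ⟨c, hc⟩ := exists_col (m := m) hS
    split_ifs with he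
    · have h1 : Tendsto (fun k => W (walk m ρ k).2) atTop (𝓝 (W (next m ρ))) := by
        refine tendsto_tsum_of_dominated_convergence (hbd (insert c C)) (fun x => ?_)
          (Eventually.of_forall fun k => ht _ _ (hc k))
        refine tendsto_const_nhds.congr' ?_
        filter_upwards [he.eventually_next hm x] with k hk
        simp only [t, hk]
      have h2 : Tendsto (fun k => f (walk m ρ k).1) atTop (𝓝 0) :=
        hf0.comp (he.tendsto_cofinite hm)
      have h3 := (h2.add h1).comp (tendsto_add_atTop_nat 1)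
      have h4 := le_of_tendsto' h3 fun k => hrun ρ _ hc k fun j hj _ => he j hj
      linarith
    · obtain ⟨T, hT1, hT2, hT3, hT4⟩ := next_of_not_escapes he
      obtain ⟨k, rfl⟩ : ∃ k, T = k + 1 := ⟨T - 1, by omega⟩
      have := hrun ρ _ hc k hT3
      rw [hT2, ← hT4] at this
      linarith
  have hiter : ∀ n : ℕ, W ((next m)^[n] (fun _ => e₀)) ≤
      n * lap f 0 + f 0 * escaped m (fun _ => e₀) n := by
    intro n
    induction n with
    | zero => simp [W, t, escaped]
    | succ n ih =>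
      obtain ⟨C, -, hS⟩ := exists_supp_iterate hm e₀ n
      have h1 := hpart _ C hS
      have h2 : (escaped m (fun _ => e₀) (n + 1) : ℝ) = escaped m (fun _ => e₀) n +
          (if Escapes m ((next m)^[n] (fun _ => e₀)) then 1 else 0) := by
        simp only [escaped, Finset.card_filter, Finset.sum_range_succ]
        push_cast; rfl
      rw [Function.iterate_succ_apply', h2]
      push_cast
      linarith
  set G := ∑' h, γ h with hG
  have hG0 : 0 ≤ G := tsum_nonneg hγ
  have hdR : (0 : ℝ) < d := by exact_mod_cast hd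
  obtain ⟨K, hK⟩ := sum_le_of_tendsto hβ hβ0 (ε := ε / (8 * d * (G + 1))) (by positivity)
  refine ⟨8 * d * K * G, fun n => le_trans ?_ (hiter n)⟩
  obtain ⟨C, hC, hS⟩ := exists_supp_iterate hm e₀ n
  have h1 : ‖W ((next m)^[n] (fun _ => e₀))‖ ≤ ∑' x, bd C x :=
    tsum_of_norm_bounded (hbd C).hasSum (ht _ C hS)
  have h2 : ∑' x, bd C x ≤ 8 * d * ((∑ c ∈ C, β c) * G) := by
    simp only [bd]
    rw [tsum_mul_left]
    exact mul_le_mul_of_nonneg_left (column_sum e₀ hβ hγ hs C).2 (by positivity)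
  have hCn : (C.card : ℝ) ≤ n := by exact_mod_cast hC
  have h3 : (∑ c ∈ C, β c) * G ≤ (K + ε / (8 * d * (G + 1)) * n) * G := by
    refine mul_le_mul_of_nonneg_right ((hK C).trans ?_) hG0
    gcongr
  have h4 : 8 * d * (ε / (8 * d * (G + 1)) * n * G) ≤ ε * n := by
    have : 8 * d * (ε / (8 * d * (G + 1)) * n * G) = ε * n * (G / (G + 1)) := by field_simp
    rw [this]
    have h5 : G / (G + 1) ≤ 1 := by rw [div_le_one (by positivity)]; linarith
    exact mul_le_of_le_one_right (by positivity) h5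
  have h5 := (abs_le.1 (h1.trans h2)).1
  have h6 : 8 * d * ((∑ c ∈ C, β c) * G) ≤ 8 * d * ((K + ε / (8 * d * (G + 1)) * n) * G) :=
    mul_le_mul_of_nonneg_left h3 (by positivity)
  nlinarith

end Pool.Agent.Lib.MP_b041da_pr
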