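import Pool.Agent.Lib.MP_b041da_pr.Potential

set_option autoImplicit false

namespace Pool.Agent.Lib.MP_b041da_pr

open Filter Topology MeasureTheory

variable {d : ℕ}

/-- probability of avoiding the origin during the times `0, ..., R` from `x` -/
noncomputable def q : ℕ → (Fin d → ℤ) → ℝ
  | 0 => fun x => if x = 0 then 0 else 1
  | R + 1 => fun x => if x = 0 then 0 else (∑ e : Fin d × Bool, q R (x + vec e)) / (2 * d)

lemma q_zero (R : ℕ) : q R (0 : Fin d → ℤ) = 0 := by cases R <;> simp [q]

lemma q_nonneg (R : ℕ) : ∀ x : Fin d → ℤ, 0 ≤ q R x := by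
  induction R with
  | zero => intro x; simp only [q]; split_ifs <;> norm_num
  | succ R ih =>
    intro x; simp only [q]; split_ifs
    · exact le_rfl
    · exact div_nonneg (Finset.sum_nonneg fun e _ => ih _) (by positivity)

lemma avg_le {g : Fin d × Bool → ℝ} {c : ℝ} (hd : 0 < d) (h : ∀ e, g e ≤ c) :
    (∑ e, g e) / (2 * d) ≤ c := by
  have hdR : (0 : ℝ) < d := by exact_mod_cast hd
  rw [div_le_iff₀ (by positivity)]
  refine (Finset.sum_le_sum fun e _ => h e).trans ?_
  simp; linarith

lemma q_le_one (hd : 0 < d) (R : ℕ) : ∀ x : Fin d → ℤ, q R x ≤ 1 := by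
  induction R with
  | zero => intro x; simp only [q]; split_ifs <;> norm_num
  | succ R ih =>
    intro x; simp only [q]; split_ifs
    · norm_num
    · exact avg_le hd fun e => ih _

lemma q_succ_le (hd : 0 < d) (R : ℕ) : ∀ x : Fin d → ℤ, q (R + 1) x ≤ q R x := by
  induction R with
  | zero =>
    intro x
    by_cases hx : x = 0
    · simp [hx, q_zero]
    · have := q_le_one hd 1 x
      simpa [q, hx] using this
  | succ R ih =>
    intro x
    by_cases hx : x = 0
    · simp [hx, q_zero]
    · rw [q, q]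
      simp only [if_neg hx]
      gcongr with e
      exact ih _

lemma q_finite (hd : 0 < d) (R : ℕ) : {x : Fin d → ℤ | q R x ≠ 1}.Finite := by
  have hdR : (0 : ℝ) < d := by exact_mod_cast hd
  induction R with
  | zero =>
    refine (Set.finite_singleton 0).subset fun x hx => ?_
    by_contra h0
    simp only [Set.mem_singleton_iff] at h0
    simp [q, h0] at hx
  | succ R ih =>
    have h1 : (⋃ e : Fin d × Bool, (fun x => x + vec e) ⁻¹' {x : Fin d → ℤ | q R x ≠ 1}).Finite :=
      Set.finite_iUnion fun e => ih.preimage (add_left_injective _).injOn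
    refine ((Set.finite_singleton 0).union h1).subset fun x hx => ?_
    by_contra h0
    simp only [Set.mem_union, Set.mem_singleton_iff, Set.mem_iUnion, Set.mem_preimage,
      Set.mem_ofPred_eq, not_or, not_exists, ne_eq, not_not] at h0
    apply hx
    simp only [q, if_neg h0.1, h0.2]
    simp
    field_simp

/-- the law of the steps -/
noncomputable def PS (d : ℕ) : Measure (ℕ → Fin d × Bool) :=
  Measure.infinitePi (fun _ : ℕ => ProbabilityTheory.uniformOn (Set.univ : Set (Fin d × Bool)))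

/-- cylinder -/
def Cyl (s : ℕ) (u : ℕ → Fin d × Bool) : Set (ℕ → Fin d × Bool) := {ω | ∀ j < s, ω j = u j}

/-- avoidance event -/
def Av (s R : ℕ) (x : Fin d → ℤ) : Set (ℕ → Fin d × Bool) :=
  {ω | ∀ k ≤ R, x + ∑ j ∈ Finset.range k, vec (ω (s + j)) ≠ 0}

lemma measurableSet_Cyl (s : ℕ) (u : ℕ → Fin d × Bool) : MeasurableSet (Cyl s u) := by
  unfold Cyl
  measurability

lemma measurable_sum_vec (s k : ℕ) :
    Measurable (fun ω : ℕ → Fin d × Bool => ∑ j ∈ Finset.range k, vec (ω (s + j))) :=
  Finset.measurable_sum _ fun j _ =>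
    (Measurable.of_discrete (f := vec)).comp (measurable_pi_apply (s + j))

lemma measurableSet_Av (s R : ℕ) (x : Fin d → ℤ) : MeasurableSet (Av s R x) := by
  have : Av s R x = ⋂ k ∈ Set.Iic R,
      (fun ω : ℕ → Fin d × Bool => ∑ j ∈ Finset.range k, vec (ω (s + j))) ⁻¹' {y | x + y ≠ 0} := by
    ext ω; simp [Av]
  rw [this]
  exact MeasurableSet.biInter (Set.to_countable _) fun k _ =>
    measurable_sum_vec s k (MeasurableSet.of_discrete)

lemma PS_prob (hd : 0 < d) : IsProbabilityMeasure (PS d) := by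
  have : Nonempty (Fin d × Bool) := ⟨(⟨0, hd⟩, true)⟩
  unfold PS; infer_instance

lemma real_Cyl (hd : 0 < d) (s : ℕ) (u : ℕ → Fin d × Bool) :
    (PS d).real (Cyl s u) = (1 / (2 * d)) ^ s := by
  have : Nonempty (Fin d × Bool) := ⟨(⟨0, hd⟩, true)⟩
  have h1 : Cyl s u = Set.pi (Finset.range s : Finset ℕ) (fun j => {u j}) := by
    ext ω; simp [Cyl]
  rw [Measure.real, h1, PS, Measure.infinitePi_pi _ (fun j _ => MeasurableSet.of_discrete)]
  simp only [ProbabilityTheory.uniformOn_univ, Measure.count_singleton, Fintype.card_prod,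
    Fintype.card_fin, Fintype.card_bool, Finset.prod_const, Finset.card_range]
  simp [mul_comm]

lemma real_split (hd : 0 < d) (s : ℕ) {A : Set (ℕ → Fin d × Bool)} (hA : MeasurableSet A) :
    (PS d).real A = ∑ e : Fin d × Bool, (PS d).real (A ∩ {ω | ω s = e}) := by
  have := PS_prob hd
  rw [← measureReal_biUnion_finset]
  · congr 1; ext ω; simp
  · intro e _ e' _ hne
    refine Set.disjoint_left.2 fun ω h1 h2 => hne ?_
    rw [← h1.2, ← h2.2]
  · intro e _
    have h1 : MeasurableSet ((fun ω : ℕ → Fin d × Bool => ω s) ⁻¹' {e}) :=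
      measurable_pi_apply s (MeasurableSet.singleton e)
    exact hA.inter h1

lemma mem_Av_succ {s R : ℕ} {x : Fin d → ℤ} {ω : ℕ → Fin d × Bool} :
    ω ∈ Av s (R + 1) x ↔ x ≠ 0 ∧ ω ∈ Av (s + 1) R (x + vec (ω s)) := by
  have key : ∀ k, x + ∑ j ∈ Finset.range (k + 1), vec (ω (s + j)) =
      x + vec (ω s) + ∑ j ∈ Finset.range k, vec (ω (s + 1 + j)) := by
    intro k
    rw [Finset.sum_range_succ', add_zero, add_assoc, add_comm (vec (ω s))]
    congr 2
    refine Finset.sum_congr rfl fun j _ => ?_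
    congr 2; ring
  constructor
  · intro h
    refine ⟨by simpa using h 0 (by omega), fun k hk => ?_⟩
    rw [← key]; exact h (k + 1) (by omega)
  · rintro ⟨h0, h⟩ k hk
    cases k with
    | zero => simpa using h0
    | succ k => rw [key]; exact h k (by omega)

lemma real_Cyl_Av (hd : 0 < d) (R : ℕ) : ∀ (s : ℕ) (u : ℕ → Fin d × Bool) (x : Fin d → ℤ),
    (PS d).real (Cyl s u ∩ Av s R x) = (1 / (2 * d)) ^ s * q R x := by
  induction R with
  | zero =>
    intro s u x
    by_cases hx : x = 0
    · have : Av s 0 x = ∅ := by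
        ext ω; simp [Av, hx]
      rw [this]; simp [hx, q_zero]
    · have : Av s 0 x = Set.univ := by
        ext ω; simp [Av, hx]
      simp [this, hx, q, real_Cyl hd]
  | succ R ih =>
    intro s u x
    by_cases hx : x = 0
    · have : Av s (R + 1) x = ∅ := by
        ext ω; simp [mem_Av_succ, hx]
      rw [this]; simp [hx, q_zero]
    · rw [real_split hd s ((measurableSet_Cyl s u).inter (measurableSet_Av _ _ _))]
      have h1 : ∀ e : Fin d × Bool, Cyl s u ∩ Av s (R + 1) x ∩ {ω | ω s = e} =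
          Cyl (s + 1) (Function.update u s e) ∩ Av (s + 1) R (x + vec e) := by
        intro e
        ext ω
        simp only [Set.mem_inter_iff, mem_Av_succ, Cyl, Set.mem_ofPred_eq]
        constructor
        · rintro ⟨⟨h1, -, h2⟩, rfl⟩
          refine ⟨fun j hj => ?_, h2⟩
          by_cases hjs : j = s
          · simp [hjs]
          · rw [Function.update_of_ne hjs]; exact h1 j (by omega)
        · rintro ⟨h1, h2⟩
          have h3 : ω s = e := by simpa using h1 s (by omega)
          refine ⟨⟨fun j hj => ?_, hx, by rwa [h3]⟩, h3⟩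
          have := h1 j (by omega)
          rwa [Function.update_of_ne (by omega)] at this
      simp_rw [h1, ih]
      rw [← Finset.mul_sum, q]
      simp only [if_neg hx]
      ring

lemma tendsto_alpha (hd : 0 < d) :
    Tendsto (fun R => (∑ e : Fin d × Bool, q R (vec e)) / (2 * d)) atTop (𝓝 (alpha d)) := by
  have := PS_prob hd
  let A : ℕ → Set (ℕ → Fin d × Bool) := fun R => {ω | ω ∈ Av 1 R (vec (ω 0))}
  have hA : ∀ R ω, ω ∈ A R ↔ ∀ k ≤ R, ∑ j ∈ Finset.range (k + 1), vec (ω j) ≠ 0 := by
    intro R ω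
    simp only [A, Av, Set.mem_ofPred_eq]
    refine forall_congr' fun k => forall_congr' fun _ => ?_
    rw [Finset.sum_range_succ', add_comm]
    simp only [add_comm 1]
  have hmeas : ∀ R, MeasurableSet (A R) := by
    intro R
    have : A R = ⋂ k ∈ Set.Iic R, (fun ω : ℕ → Fin d × Bool =>
        ∑ j ∈ Finset.range (k + 1), vec (ω (0 + j))) ⁻¹' {y | y ≠ 0} := by
      ext ω; simp [hA]
    rw [this]
    exact MeasurableSet.biInter (Set.to_countable _) fun k _ =>
      measurable_sum_vec 0 (k + 1) (MeasurableSet.of_discrete)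
  have hanti : Antitone A := by
    intro R R' h ω hω
    rw [hA] at hω ⊢
    exact fun k hk => hω k (hk.trans h)
  have hint : (⋂ R, A R) = {ω | ∀ k, 1 ≤ k → ∑ j ∈ Finset.range k, vec (ω j) ≠ 0} := by
    ext ω
    simp only [Set.mem_iInter, hA, Set.mem_ofPred_eq]
    constructor
    · intro h k hk
      obtain ⟨k, rfl⟩ : ∃ k', k = k' + 1 := ⟨k - 1, by omega⟩
      exact h k k le_rfl
    · intro h R k _
      exact h (k + 1) (by omega)
  have h1 := tendsto_measure_iInter_atTop (μ := PS d) (fun R => (hmeas R).nullMeasurableSet) hanti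
    ⟨0, measure_ne_top _ _⟩
  rw [hint] at h1
  have h2 := (ENNReal.tendsto_toReal (measure_ne_top _ _)).comp h1
  refine h2.congr fun R => ?_
  change (PS d).real (A R) = _
  rw [real_split hd 0 (hmeas R), Finset.sum_div]
  refine Finset.sum_congr rfl fun e _ => ?_
  have h3 : A R ∩ {ω | ω 0 = e} = Cyl 1 (fun _ => e) ∩ Av 1 R (vec e) := by
    ext ω
    simp only [A, Cyl, Set.mem_inter_iff, Set.mem_ofPred_eq, Nat.lt_one_iff, forall_eq]
    constructor
    · rintro ⟨h1, rfl⟩; exact ⟨rfl, h1⟩
    · rintro ⟨rfl, h1⟩; exact ⟨h1, rfl⟩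
  rw [h3, real_Cyl_Av hd]
  ring

/-- probability of never visiting the origin from `x` -/
noncomputable def qinf (x : Fin d → ℤ) : ℝ := ⨅ R, q R x

lemma tendsto_qinf (hd : 0 < d) (x : Fin d → ℤ) : Tendsto (fun R => q R x) atTop (𝓝 (qinf x)) :=
  tendsto_atTop_ciInf (antitone_nat_of_succ_le fun R => q_succ_le hd R x)
    ⟨0, by rintro _ ⟨R, rfl⟩; exact q_nonneg R x⟩

lemma qinf_zero : qinf (0 : Fin d → ℤ) = 0 := by simp [qinf, q_zero]

lemma qinf_le_one (hd : 0 < d) (x : Fin d → ℤ) : qinf x ≤ 1 :=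
  le_of_tendsto' (tendsto_qinf hd x) fun R => q_le_one hd R x

lemma qinf_harm (hd : 0 < d) {x : Fin d → ℤ} (hx : x ≠ 0) :
    qinf x = (∑ e : Fin d × Bool, qinf (x + vec e)) / (2 * d) := by
  have h1 := (tendsto_qinf hd x).comp (tendsto_add_atTop_nat 1)
  have h2 : Tendsto (fun R => (∑ e : Fin d × Bool, q R (x + vec e)) / (2 * d)) atTop
      (𝓝 ((∑ e : Fin d × Bool, qinf (x + vec e)) / (2 * d))) :=
    (tendsto_finsetSum _ fun e _ => tendsto_qinf hd _).div_const _
  refine tendsto_nhds_unique h1 (h2.congr fun R => ?_)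
  simp [q, hx]

lemma alpha_eq (hd : 0 < d) : alpha d = (∑ e : Fin d × Bool, qinf (vec e)) / (2 * d) :=
  tendsto_nhds_unique (tendsto_alpha hd)
    ((tendsto_finsetSum _ fun _ _ => tendsto_qinf hd _).div_const _)

end Pool.Agent.Lib.MP_b041da_pr
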