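import Pool.Agent.Lib.MP_b041da_pr.Defs

set_option autoImplicit false

namespace Pool.Agent.Lib.MP_b041da_pr

open Filter Topology

variable {d : ℕ} {m : (Fin d → ℤ) → Equiv.Perm (Fin d × Bool)} {ρ : (Fin d → ℤ) → Fin d × Bool}

lemma walk_succ (k : ℕ) : walk m ρ (k + 1) = step m (walk m ρ k) :=
  Function.iterate_succ_apply' _ _ _

lemma walk_pos_succ (k : ℕ) :
    (walk m ρ (k + 1)).1 = (walk m ρ k).1 + vec ((walk m ρ k).2 (walk m ρ k).1) := by
  rw [walk_succ]; rfl

lemma walk_rot_succ_self (k : ℕ) :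
    (walk m ρ (k + 1)).2 (walk m ρ k).1 = m (walk m ρ k).1 ((walk m ρ k).2 (walk m ρ k).1) := by
  simp [walk_succ, step]

lemma walk_rot_succ_ne (k : ℕ) {x : Fin d → ℤ} (hx : x ≠ (walk m ρ k).1) :
    (walk m ρ (k + 1)).2 x = (walk m ρ k).2 x := by
  simp [walk_succ, step, Function.update_of_ne hx]

lemma rot_const {x : Fin d → ℤ} {k₀ k : ℕ} (hk : k₀ ≤ k)
    (h : ∀ j, k₀ ≤ j → j < k → (walk m ρ j).1 ≠ x) : (walk m ρ k).2 x = (walk m ρ k₀).2 x := by
  induction k, hk using Nat.le_induction with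
  | base => rfl
  | succ k hk ih =>
    rw [walk_rot_succ_ne k (h k hk (Nat.lt_succ_self k)).symm]
    exact ih fun j hj hjk => h j hj (Nat.lt_succ_of_lt hjk)

lemma visit_pow {x : Fin d → ℤ} (hx : ∃ᶠ k in atTop, (walk m ρ k).1 = x) (j : ℕ) :
    ∀ k₀, ∃ k, k₀ ≤ k ∧ (walk m ρ k).1 = x ∧
      (walk m ρ k).2 x = (m x ^ j) ((walk m ρ k₀).2 x) := by
  have base : ∀ k₀, ∃ k, k₀ ≤ k ∧ (walk m ρ k).1 = x ∧
      (walk m ρ k).2 x = (walk m ρ k₀).2 x := by
    intro k₀
    have hex : ∃ k, k₀ ≤ k ∧ (walk m ρ k).1 = x := by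
      obtain ⟨k, h1, h2⟩ := frequently_atTop.1 hx k₀
      exact ⟨k, h1, h2⟩
    classical
    refine ⟨Nat.find hex, (Nat.find_spec hex).1, (Nat.find_spec hex).2, ?_⟩
    exact rot_const (Nat.find_spec hex).1 fun j hj hjk h => Nat.find_min hex hjk ⟨hj, h⟩
  induction j with
  | zero => simpa using base
  | succ j ih =>
    intro k₀
    obtain ⟨k₁, h1, h2, h3⟩ := base k₀
    obtain ⟨k, h4, h5, h6⟩ := ih (k₁ + 1)
    refine ⟨k, by omega, h5, ?_⟩
    rw [h6, pow_succ, Equiv.Perm.mul_apply, ← h3]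
    have := walk_rot_succ_self (m := m) (ρ := ρ) k₁
    rw [h2] at this
    rw [this]

lemma freq_add_vec (hm : ∀ x, (m x).IsCycleOn Set.univ) {x : Fin d → ℤ}
    (hx : ∃ᶠ k in atTop, (walk m ρ k).1 = x) (e : Fin d × Bool) :
    ∃ᶠ k in atTop, (walk m ρ k).1 = x + vec e := by
  rw [frequently_atTop]
  intro k₀
  obtain ⟨j, hj⟩ := (hm x).exists_pow_eq' Set.finite_univ
    (Set.mem_univ ((walk m ρ k₀).2 x)) (Set.mem_univ e)
  obtain ⟨k, h1, h2, h3⟩ := visit_pow hx j k₀
  refine ⟨k + 1, by omega, ?_⟩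
  rw [walk_pos_succ, h2, h3, hj]

lemma closed_all {V : Set (Fin d → ℤ)} (hV : ∀ x ∈ V, ∀ e, x + vec e ∈ V) (y : Fin d → ℤ) :
    ∀ x ∈ V, x + y ∈ V := by
  have hs : ∀ (i : Fin d) (n : ℤ), ∀ x ∈ V, x + Pi.single i n ∈ V := by
    intro i n
    induction n using Int.induction_on with
    | zero => simp
    | succ n ih =>
      intro x hx
      have := hV _ (ih x hx) (i, true)
      simpa [vec, Pi.single_add, add_assoc] using this
    | pred n ih =>
      intro x hx
      have := hV _ (ih x hx) (i, false)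
      have h2 : (Pi.single i (-(n : ℤ) - 1) : Fin d → ℤ) =
          Pi.single i (-(n : ℤ)) + Pi.single i (-1) := by
        rw [← Pi.single_add]; congr 1
      rw [h2, ← add_assoc]
      simpa [vec] using this
  rw [← Finset.univ_sum_single y]
  refine Finset.sum_induction _ (fun y => ∀ x ∈ V, x + y ∈ V) ?_ (by simp) ?_
  · intro a b ha hb x hx
    rw [← add_assoc]; exact hb _ (ha x hx)
  · intro i _
    exact hs i (y i)

lemma Escapes.eventually_ne (hm : ∀ x, (m x).IsCycleOn Set.univ) (h : Escapes m ρ)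
    (x : Fin d → ℤ) : ∀ᶠ k in atTop, (walk m ρ k).1 ≠ x := by
  by_contra hc
  rw [not_eventually] at hc
  simp only [ne_eq, not_not] at hc
  have := closed_all (V := {y | ∃ᶠ k in atTop, (walk m ρ k).1 = y})
    (fun y hy e => freq_add_vec hm hy e) (-x) x hc
  simp only [add_neg_cancel, Set.mem_ofPred_eq] at this
  obtain ⟨k, h1, h2⟩ := frequently_atTop.1 this 1
  exact h k h1 h2

lemma Escapes.tendsto_cofinite (hm : ∀ x, (m x).IsCycleOn Set.univ) (h : Escapes m ρ) :
    Tendsto (fun k => (walk m ρ k).1) atTop cofinite := by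
  intro s hs
  rw [mem_cofinite] at hs
  have := (eventually_all_finite hs).2 fun x _ => h.eventually_ne hm x
  rw [mem_map]
  filter_upwards [this] with k hk
  by_contra hc
  exact hk _ hc rfl

lemma Escapes.eventually_next (hm : ∀ x, (m x).IsCycleOn Set.univ) (h : Escapes m ρ)
    (x : Fin d → ℤ) : ∀ᶠ k in atTop, (walk m ρ k).2 x = next m ρ x := by
  have hex : ∃ e, ∀ᶠ k in atTop, (walk m ρ k).2 x = e := by
    obtain ⟨k₀, hk₀⟩ := eventually_atTop.1 (h.eventually_ne hm x)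
    refine ⟨(walk m ρ k₀).2 x, ?_⟩
    filter_upwards [eventually_ge_atTop k₀] with k hk
    exact rot_const hk fun j hj _ => hk₀ j hj
  have : next m ρ x = hex.choose := by
    simp only [next, if_pos h, dif_pos hex]
  rw [this]
  exact hex.choose_spec

lemma next_of_not_escapes (h : ¬ Escapes m ρ) :
    ∃ T, 1 ≤ T ∧ (walk m ρ T).1 = 0 ∧ (∀ j, 1 ≤ j → j < T → (walk m ρ j).1 ≠ 0) ∧
      next m ρ = (walk m ρ T).2 := by
  have hne : {k | 1 ≤ k ∧ (walk m ρ k).1 = 0}.Nonempty := by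
    unfold Escapes at h
    push Not at h
    exact h
  refine ⟨sInf {k | 1 ≤ k ∧ (walk m ρ k).1 = 0}, (Nat.sInf_mem hne).1, (Nat.sInf_mem hne).2,
    fun j hj hjT h0 => ?_, by simp only [next, if_neg h]⟩
  exact Nat.notMem_of_lt_sInf hjT ⟨hj, h0⟩

/-- the column of `x` in the direction of `e₀` -/
def col (e₀ : Fin d × Bool) (x : Fin d → ℤ) : Fin d → ℤ := Function.update x e₀.1 0

lemma col_add_smul (e₀ : Fin d × Bool) (x : Fin d → ℤ) (j : ℤ) :
    col e₀ (x + j • vec e₀) = col e₀ x := by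
  funext i
  by_cases hi : i = e₀.1
  · subst hi; simp [col]
  · simp [col, Function.update_of_ne hi, vec, Pi.single_eq_of_ne hi]

lemma smul_vec_inj (e₀ : Fin d × Bool) {i j : ℤ} (h : i • vec e₀ = j • vec e₀) : i = j := by
  have := congrFun h e₀.1
  simp only [vec, Pi.smul_apply, Pi.single_eq_same, smul_eq_mul] at this
  split_ifs at this <;> linarith

/-- all rotors outside the columns in `C` point in direction `e₀` -/
def Supp (e₀ : Fin d × Bool) (ρ : (Fin d → ℤ) → Fin d × Bool) (C : Finset (Fin d → ℤ)) : Prop :=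
  ∀ x, col e₀ x ∉ C → ρ x = e₀

lemma exists_col {e₀ : Fin d × Bool} {C : Finset (Fin d → ℤ)} (h : Supp e₀ ρ C) :
    ∃ c, ∀ k, Supp e₀ (walk m ρ k).2 (insert c C) := by
  have h1 : ∀ k, (∀ j < k, col e₀ (walk m ρ j).1 ∈ C) → Supp e₀ (walk m ρ k).2 C := by
    intro k hk x hx
    rw [rot_const (m := m) (ρ := ρ) (x := x) (Nat.zero_le k)
      fun j _ hj hjx => hx (hjx ▸ hk j hj)]
    exact h x hx
  by_cases hall : ∀ k, col e₀ (walk m ρ k).1 ∈ C
  · exact ⟨0, fun k x hx => h1 k (fun j _ => hall j) x fun hc => hx (Finset.mem_insert_of_mem hc)⟩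
  push Not at hall
  classical
  set k₀ := Nat.find hall with hk₀
  have hspec : col e₀ (walk m ρ k₀).1 ∉ C := Nat.find_spec hall
  have hmin : ∀ j < k₀, col e₀ (walk m ρ j).1 ∈ C := fun j hj => by
    have := Nat.find_min hall hj
    simpa using this
  have h2 : ∀ j : ℕ, ∀ i ≤ j, (walk m ρ (k₀ + i)).1 = (walk m ρ k₀).1 + (i : ℤ) • vec e₀ := by
    intro j
    induction j with
    | zero => intro i hi; simp [Nat.le_zero.1 hi]
    | succ j ih =>
      intro i hi
      rcases hi.lt_or_eq with hi | rfl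
      · exact ih i (by omega)
      · rw [← add_assoc, walk_pos_succ]
        have h3 : (walk m ρ (k₀ + j)).2 (walk m ρ (k₀ + j)).1 = e₀ := by
          rw [rot_const (Nat.le_add_right k₀ j)]
          · apply h1 k₀ hmin
            rw [ih j le_rfl, col_add_smul]
            exact hspec
          · intro l hl1 hl2 hl3
            obtain ⟨i, rfl⟩ := Nat.exists_eq_add_of_le hl1
            rw [ih i (by omega), ih j le_rfl, add_right_inj] at hl3
            have := smul_vec_inj e₀ hl3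
            omega
        rw [h3, ih j le_rfl]
        push_cast
        rw [add_smul, one_smul, add_assoc]
  refine ⟨col e₀ (walk m ρ k₀).1, fun k x hx => ?_⟩
  rw [Finset.mem_insert, not_or] at hx
  rw [rot_const (Nat.zero_le k)]
  · exact h x hx.2
  · intro j _ _ hjx
    by_cases hj : j < k₀
    · exact hx.2 (hjx ▸ hmin j hj)
    · obtain ⟨i, rfl⟩ := Nat.exists_eq_add_of_le (not_lt.1 hj)
      apply hx.1
      rw [← hjx, h2 i i le_rfl, col_add_smul]

lemma supp_next (hm : ∀ x, (m x).IsCycleOn Set.univ) {e₀ : Fin d × Bool}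
    {C : Finset (Fin d → ℤ)} (h : ∀ k, Supp e₀ (walk m ρ k).2 C) : Supp e₀ (next m ρ) C := by
  by_cases he : Escapes m ρ
  · intro x hx
    obtain ⟨k, hk⟩ := (he.eventually_next hm x).exists
    rw [← hk]; exact h k x hx
  · obtain ⟨T, -, -, -, hT⟩ := next_of_not_escapes he
    rw [hT]; exact h T

lemma exists_supp_iterate (hm : ∀ x, (m x).IsCycleOn Set.univ) (e₀ : Fin d × Bool) (n : ℕ) :
    ∃ C : Finset (Fin d → ℤ), C.card ≤ n ∧ Supp e₀ ((next m)^[n] (fun _ => e₀)) C := by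
  induction n with
  | zero => exact ⟨∅, le_rfl, fun _ _ => rfl⟩
  | succ n ih =>
    obtain ⟨C, hC, hS⟩ := ih
    obtain ⟨c, hc⟩ := exists_col (m := m) hS
    refine ⟨insert c C, (Finset.card_insert_le _ _).trans (by omega), ?_⟩
    rw [Function.iterate_succ_apply']
    exact supp_next hm hc

end Pool.Agent.Lib.MP_b041da_pr
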